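import Pool.Agent.H85.RT.Lift

/-!
# The return times theorem for double recurrence for weights orthogonal to a tail
-/

namespace Pool.Agent.H85.RT

open MeasureTheory Finset Filter Topology

universe u v

theorem NullR.smul {w : ℕ → ℝ} (h : NullR.{u} w) (c : ℝ) : NullR.{u} (fun n => c * w n) := by
  intro X _ μ _ T hT f g hf hg hfb hgb
  filter_upwards [h X μ T hT f g hf hg hfb hgb] with x hx
  have := hx.const_mul c
  rw [mul_zero] at this
  refine this.congr fun N => ?_
  rw [← mul_div_assoc, Finset.mul_sum]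
  congr 1
  exact Finset.sum_congr rfl fun n _ => by ring

theorem NullWeight.goodWeight {w : ℕ → ℂ} (h : NullWeight.{u} w) : GoodWeight.{u} w := by
  intro X _ μ _ T hT f g hf hg
  filter_upwards [h X μ T hT f g hf hg] with x hx
  exact ⟨0, hx⟩

theorem avg_add {X : Type u} [MeasurableSpace X] (T : X ≃ᵐ X) (f g : X → ℂ) (w v : ℕ → ℂ)
    (N : ℕ) (x : X) : avg T f g (fun n => w n + v n) N x = avg T f g w N x + avg T f g v N x := by
  unfold avg
  rw [← add_div, ← Finset.sum_add_distrib]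
  congr 1
  exact Finset.sum_congr rfl fun n _ => by ring

theorem avg_mul {X : Type u} [MeasurableSpace X] (T : X ≃ᵐ X) (f g : X → ℂ) (c : ℂ) (v : ℕ → ℂ)
    (N : ℕ) (x : X) : avg T f g (fun n => c * v n) N x = c * avg T f g v N x := by
  unfold avg
  rw [← mul_div_assoc, Finset.mul_sum]
  congr 1
  exact Finset.sum_congr rfl fun n _ => by ring

theorem GoodWeight.add {w v : ℕ → ℂ} (h1 : GoodWeight.{u} w) (h2 : GoodWeight.{u} v) :
    GoodWeight.{u} (fun n => w n + v n) := by
  intro X _ μ _ T hT f g hf hg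
  filter_upwards [h1 X μ T hT f g hf hg, h2 X μ T hT f g hf hg] with x ⟨l, hl⟩ ⟨k, hk⟩
  refine ⟨l + k, (hl.add hk).congr fun N => ?_⟩
  exact (avg_add T f g w v N x).symm

theorem GoodWeight.mul {v : ℕ → ℂ} (h1 : GoodWeight.{u} v) (c : ℂ) :
    GoodWeight.{u} (fun n => c * v n) := by
  intro X _ μ _ T hT f g hf hg
  filter_upwards [h1 X μ T hT f g hf hg] with x ⟨l, hl⟩
  refine ⟨c * l, (hl.const_mul c).congr fun N => ?_⟩
  exact (avg_mul T f g c v N x).symm

theorem good_iff {w v : ℕ → ℂ} (h : NullWeight.{u} (fun n => w n - v n)) :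
    GoodWeight.{u} w ↔ GoodWeight.{u} v := by
  have hg := h.goodWeight
  constructor
  · intro hw
    have := hw.add (hg.mul (-1))
    have e : (fun n => w n + -1 * (w n - v n)) = v := by funext n; ring
    rw [e] at this
    exact this
  · intro hv
    have := hv.add hg
    have e : (fun n => v n + (w n - v n)) = w := by funext n; ring
    rw [e] at this
    exact this

theorem exists_set {Ω : Type v} [MeasurableSpace Ω] {m : Measure Ω} [IsProbabilityMeasure m]
    {p : Ω → Prop} (h : ∀ᵐ ω ∂m, p ω) : ∃ G : Set Ω, MeasurableSet G ∧ m G = 1 ∧ ∀ ω ∈ G, p ω := by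
  refine ⟨(toMeasurable m {ω | ¬ p ω})ᶜ, (measurableSet_toMeasurable _ _).compl, ?_, ?_⟩
  · rw [prob_compl_eq_one_iff (measurableSet_toMeasurable _ _), measure_toMeasurable]
    exact h
  · intro ω hω
    by_contra hc
    exact hω (subset_toMeasurable _ _ hc)

section translates

variable {Ω : Type v} {P : MeasurableSpace Ω} [m0 : MeasurableSpace Ω]

theorem translate_nat (S : Ω ≃ᵐ Ω) (k : ℕ) :
    translate S.toEquiv P (k : ℤ) = P.comap S^[k] := by
  unfold translate
  rw [zpow_natCast, Equiv.Perm.coe_pow]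
  rfl

theorem translate_neg (S : Ω ≃ᵐ Ω) (k : ℕ) :
    translate S.toEquiv P (-(k : ℤ)) = P.comap S.symm^[k] := by
  unfold translate
  rw [zpow_neg, ← inv_zpow, zpow_natCast, Equiv.Perm.coe_pow]
  rfl

theorem tail_past (S : Ω ≃ᵐ Ω) (hP : P ≤ P.comap S) :
    tail S.toEquiv P = ⨅ k : ℕ, P.comap S.symm^[k] := by
  unfold tail
  refine le_antisymm (le_iInf fun k => ?_) (le_iInf fun n => ?_)
  · rw [← translate_neg]
    exact iInf_le _ _
  · obtain ⟨k, hk⟩ | ⟨k, hk⟩ : (∃ k : ℕ, n = k) ∨ (∃ k : ℕ, n = -(k : ℤ)) := by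
      rcases le_total 0 n with h | h
      · exact Or.inl ⟨n.toNat, by omega⟩
      · exact Or.inr ⟨(-n).toNat, by omega⟩
    · rw [hk, translate_nat]
      exact (iInf_le _ k).trans (sig_LH S hP k)
    · rw [hk, translate_neg]
      exact iInf_le _ k

theorem span_past (S : Ω ≃ᵐ Ω) (hP : P ≤ P.comap S) :
    span S.toEquiv P = ⨆ k : ℕ, P.comap S^[k] := by
  unfold span
  refine le_antisymm (iSup_le fun n => ?_) (iSup_le fun k => ?_)
  · obtain ⟨k, hk⟩ | ⟨k, hk⟩ : (∃ k : ℕ, n = k) ∨ (∃ k : ℕ, n = -(k : ℤ)) := by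
      rcases le_total 0 n with h | h
      · exact Or.inl ⟨n.toNat, by omega⟩
      · exact Or.inr ⟨(-n).toNat, by omega⟩
    · rw [hk, translate_nat]
      exact le_iSup (fun k : ℕ => P.comap S^[k]) k
    · rw [hk, translate_neg]
      exact (sig_LH S hP k).trans (le_iSup (fun k : ℕ => P.comap S^[k]) k)
  · rw [← translate_nat]
    exact le_iSup (fun n : ℤ => translate S.toEquiv P n) _

theorem symm_hyp (S : Ω ≃ᵐ Ω) (hP : P.comap S ≤ P) : P ≤ P.comap S.symm := by
  have h1 : (P.comap S).comap S.symm ≤ P.comap S.symm := MeasurableSpace.comap_mono hP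
  rw [MeasurableSpace.comap_comp] at h1
  have h2 : (S : Ω → Ω) ∘ S.symm = id := by
    funext x; exact S.apply_symm_apply x
  rw [h2, MeasurableSpace.comap_id] at h1
  exact h1

theorem tail_future (S : Ω ≃ᵐ Ω) (hP : P.comap S ≤ P) :
    tail S.toEquiv P = ⨅ k : ℕ, P.comap S^[k] := by
  have hP' := symm_hyp S hP
  unfold tail
  refine le_antisymm (le_iInf fun k => ?_) (le_iInf fun n => ?_)
  · rw [← translate_nat]
    exact iInf_le _ _
  · obtain ⟨k, hk⟩ | ⟨k, hk⟩ : (∃ k : ℕ, n = k) ∨ (∃ k : ℕ, n = -(k : ℤ)) := by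
      rcases le_total 0 n with h | h
      · exact Or.inl ⟨n.toNat, by omega⟩
      · exact Or.inr ⟨(-n).toNat, by omega⟩
    · rw [hk, translate_nat]
      exact iInf_le _ k
    · rw [hk, translate_neg]
      exact (iInf_le _ k).trans (sig_LH S.symm hP' k)

theorem span_future (S : Ω ≃ᵐ Ω) (hP : P.comap S ≤ P) :
    span S.toEquiv P = ⨆ k : ℕ, P.comap S.symm^[k] := by
  have hP' := symm_hyp S hP
  unfold span
  refine le_antisymm (iSup_le fun n => ?_) (iSup_le fun k => ?_)
  · obtain ⟨k, hk⟩ | ⟨k, hk⟩ : (∃ k : ℕ, n = k) ∨ (∃ k : ℕ, n = -(k : ℤ)) := by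
      rcases le_total 0 n with h | h
      · exact Or.inl ⟨n.toNat, by omega⟩
      · exact Or.inr ⟨(-n).toNat, by omega⟩
    · rw [hk, translate_nat]
      exact (sig_LH S.symm hP' k).trans (le_iSup (fun k : ℕ => P.comap S.symm^[k]) k)
    · rw [hk, translate_neg]
      exact le_iSup (fun k : ℕ => P.comap S.symm^[k]) k
  · rw [← translate_neg]
    exact le_iSup (fun n : ℤ => translate S.toEquiv P n) _

theorem translate_le (S : Ω ≃ᵐ Ω) (hP : P ≤ m0) (n : ℤ) : translate S.toEquiv P n ≤ m0 := by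
  obtain ⟨k, hk⟩ | ⟨k, hk⟩ : (∃ k : ℕ, n = k) ∨ (∃ k : ℕ, n = -(k : ℤ)) := by
    rcases le_total 0 n with h | h
    · exact Or.inl ⟨n.toNat, by omega⟩
    · exact Or.inr ⟨(-n).toNat, by omega⟩
  · rw [hk, translate_nat]
    exact sig_le S hP k
  · rw [hk, translate_neg]
    exact sig_le S.symm hP k

theorem tail_le (S : Ω ≃ᵐ Ω) (hP : P ≤ m0) : tail S.toEquiv P ≤ m0 :=
  (iInf_le _ 0).trans (translate_le S hP 0)

theorem span_le (S : Ω ≃ᵐ Ω) (hP : P ≤ m0) : span S.toEquiv P ≤ m0 :=
  iSup_le fun n => translate_le S hP n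

/-- real bounded weights -/
theorem real_main {m : Measure Ω} [IsProbabilityMeasure m] {S : Ω ≃ᵐ Ω}
    (hS : MeasurePreserving S m m) (hP0 : P ≤ m0) (hP : IsMono S.toEquiv P) {h : Ω → ℝ}
    (hm : Measurable h) (hb : ∀ ω, |h ω| ≤ 1 / 2)
    (hspan : AEStronglyMeasurable[span S.toEquiv P] h m) :
    ∀ᵐ ω ∂m, NullR.{u} (fun n => h (S^[n] ω) - (m[h | tail S.toEquiv P]) (S^[n] ω)) := by
  rcases hP with hP | hP
  · have hP' : P.comap S ≤ P := hP
    rw [span_future S hP'] at hspan
    rw [tail_future S hP']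
    exact core_future hS hP0 hP' hm hb hspan
  · have hP' : P ≤ P.comap S := hP
    rw [span_past S hP'] at hspan
    rw [tail_past S hP']
    exact core_past hS hP0 hP' hm hb hspan

/-- complex essentially bounded weights -/
theorem complex_main {m : Measure Ω} [IsProbabilityMeasure m] {S : Ω ≃ᵐ Ω}
    (hS : MeasurePreserving S m m) (hP0 : P ≤ m0) (hP : IsMono S.toEquiv P) {h : Ω → ℂ}
    (hh : MemLp h ⊤ m) (hspan : AEStronglyMeasurable[span S.toEquiv P] h m) :
    ∀ᵐ ω ∂m, NullWeight.{u} (fun n => h (S^[n] ω) - (m[h | tail S.toEquiv P]) (S^[n] ω)) := by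
  obtain ⟨c, h1, h2, hc, hm1, hm2, hb1, hb2, he⟩ := rep hh
  have hi : Integrable h m := hh.integrable le_top
  have hcc : (c : ℂ) ≠ 0 := by exact_mod_cast hc.ne'
  have e1 : (fun ω => (h ω).re) =ᵐ[m] fun ω => c * h1 ω := by
    filter_upwards [he] with ω hω
    rw [hω]
    simp
  have e2 : (fun ω => (h ω).im) =ᵐ[m] fun ω => c * h2 ω := by
    filter_upwards [he] with ω hω
    rw [hω]
    simp
  have hs1 : AEStronglyMeasurable[span S.toEquiv P] h1 m := by
    have a1 : AEStronglyMeasurable[span S.toEquiv P] (fun ω => c⁻¹ * (h ω).re) m :=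
      (Complex.continuous_re.comp_aestronglyMeasurable hspan).const_mul c⁻¹
    refine a1.congr ?_
    filter_upwards [e1] with ω hω
    rw [hω]
    field_simp
  have hs2 : AEStronglyMeasurable[span S.toEquiv P] h2 m := by
    have a1 : AEStronglyMeasurable[span S.toEquiv P] (fun ω => c⁻¹ * (h ω).im) m :=
      (Complex.continuous_im.comp_aestronglyMeasurable hspan).const_mul c⁻¹
    refine a1.congr ?_
    filter_upwards [e2] with ω hω
    rw [hω]
    field_simp
  have c1 : (fun ω => ((m[h | tail S.toEquiv P]) ω).re) =ᵐ[m] fun ω => c * (m[h1 | tail S.toEquiv P]) ω := by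
    have a1 := Complex.reCLM.comp_condExp_comm (m := tail S.toEquiv P) hi
    have a2 : m[Complex.reCLM ∘ h | tail S.toEquiv P] =ᵐ[m] m[c • h1 | tail S.toEquiv P] := condExp_congr_ae e1
    have a3 : m[c • h1 | tail S.toEquiv P] =ᵐ[m] c • m[h1 | tail S.toEquiv P] := condExp_smul c h1 (tail S.toEquiv P)
    exact (a1.trans a2).trans a3
  have c2 : (fun ω => ((m[h | tail S.toEquiv P]) ω).im) =ᵐ[m] fun ω => c * (m[h2 | tail S.toEquiv P]) ω := by
    have a1 := Complex.imCLM.comp_condExp_comm (m := tail S.toEquiv P) hi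
    have a2 : m[Complex.imCLM ∘ h | tail S.toEquiv P] =ᵐ[m] m[c • h2 | tail S.toEquiv P] := condExp_congr_ae e2
    have a3 : m[c • h2 | tail S.toEquiv P] =ᵐ[m] c • m[h2 | tail S.toEquiv P] := condExp_smul c h2 (tail S.toEquiv P)
    exact (a1.trans a2).trans a3
  have r1 := real_main.{u} hS hP0 hP hm1 hb1 hs1
  have r2 := real_main.{u} hS hP0 hP hm2 hb2 hs2
  filter_upwards [r1, r2, ae_orbit hS e1, ae_orbit hS e2, ae_orbit hS c1, ae_orbit hS c2]
    with ω a1 a2 b1 b2 d1 d2
  have hn := nullWeight_of_real (a1.smul c) (a2.smul c)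
  have e : (fun n => h (S^[n] ω) - (m[h | tail S.toEquiv P]) (S^[n] ω)) =
      fun n => ((c * (h1 (S^[n] ω) - (m[h1 | tail S.toEquiv P]) (S^[n] ω)) : ℝ) : ℂ) +
        Complex.I * ((c * (h2 (S^[n] ω) - (m[h2 | tail S.toEquiv P]) (S^[n] ω)) : ℝ) : ℂ) := by
    funext n
    have x1 := b1 n
    have x2 := b2 n
    have y1 := d1 n
    have y2 := d2 n
    apply Complex.ext
    · simp
      rw [x1, y1]
      ring
    · simp
      rw [x2, y2]
      ring
  rw [e]
  exact hn

/-- Kolmogorov systems -/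
theorem K_main {m : Measure Ω} [IsProbabilityMeasure m] {S : Ω ≃ᵐ Ω}
    (hS : MeasurePreserving S m m) (hK : IsKWith P S m) {h : Ω → ℂ} (hh : MemLp h ⊤ m) :
    ∀ᵐ ω ∂m, NullWeight.{u} (fun n => h (S^[n] ω) - ∫ ω, h ω ∂m) := by
  obtain ⟨hP0, hP, hgen, htriv⟩ := hK
  have hi : Integrable h m := hh.integrable le_top
  have hMle : tail S.toEquiv P ≤ m0 := tail_le S hP0
  have hSle : span S.toEquiv P ≤ m0 := span_le S hP0
  have hspan : AEStronglyMeasurable[span S.toEquiv P] h m := by
    have h1 : h =ᵐ[m] m[h | span S.toEquiv P] := by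
      refine Integrable.ae_eq_of_forall_setIntegral_eq h _ hi integrable_condExp
        (fun A hA _ => ?_)
      obtain ⟨B, hB, hAB⟩ := hgen A hA
      rw [setIntegral_congr_set hAB, setIntegral_congr_set hAB, setIntegral_condExp hSle hi hB]
    exact (stronglyMeasurable_condExp.aestronglyMeasurable).congr h1.symm
  have htail : m[h | tail S.toEquiv P] =ᵐ[m] fun _ => ∫ ω, h ω ∂m := by
    symm
    refine ae_eq_condExp_of_forall_setIntegral_eq hMle hi (fun s _ _ => integrableOn_const)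
      (fun s hs _ => ?_) stronglyMeasurable_const.aestronglyMeasurable
    rcases htriv s hs with h0 | h1
    · rw [Measure.restrict_eq_zero.mpr h0, integral_zero_measure, integral_zero_measure]
    · have h2 : (s : Set Ω) =ᵐ[m] Set.univ := by
        rw [ae_eq_univ]
        exact (prob_compl_eq_zero_iff (hMle s hs)).mpr h1
      rw [setIntegral_congr_set h2, setIntegral_congr_set h2]
      simp
  filter_upwards [complex_main.{u} hS hP0 hP hh hspan, ae_orbit hS htail] with ω a1 a2
  have e : (fun n => h (S^[n] ω) - ∫ ω, h ω ∂m) =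
      fun n => h (S^[n] ω) - (m[h | tail S.toEquiv P]) (S^[n] ω) := by
    funext n
    rw [a2 n]
  rw [e]
  exact a1

end translates

theorem good_const {c : ℂ} : GoodWeight.{u} (fun _ => c) ↔ c = 0 ∨ GoodWeight.{u} (fun _ => 1) := by
  constructor
  · intro h
    by_cases hc : c = 0
    · exact Or.inl hc
    · right
      have := h.mul c⁻¹
      have e : (fun _ : ℕ => c⁻¹ * c) = fun _ => (1 : ℂ) := by
        funext n; exact inv_mul_cancel₀ hc
      rw [e] at this
      exact this
  · rintro (h | h)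
    · rw [h]
      intro X _ μ _ T hT f g hf hg
      refine Eventually.of_forall fun x => ⟨0, ?_⟩
      unfold avg
      simp
    · have := h.mul c
      simpa using this

end Pool.Agent.H85.RT
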