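import Mathlib

/-!
# Definitions for the return times problem for double recurrence averages
-/

namespace Pool.Agent.H85.RT

open MeasureTheory Filter Topology

universe u v

/-- the average `(1/N) ∑_{n=1}^N f(T^n x) g(T^{-n} x) w(n)` -/
noncomputable def avg {X : Type u} [MeasurableSpace X] (T : X ≃ᵐ X) (f g : X → ℂ) (w : ℕ → ℂ)
    (N : ℕ) (x : X) : ℂ :=
  (∑ n ∈ Finset.Icc 1 N, f (T^[n] x) * g (T.symm^[n] x) * w n) / N

/-- the weight `w` is good: for every invertible measure preserving system on a probability space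
and all bounded `f`, `g` the averages converge almost everywhere -/
def GoodWeight (w : ℕ → ℂ) : Prop :=
  ∀ (X : Type u) [MeasurableSpace X] (μ : Measure X) [IsProbabilityMeasure μ] (T : X ≃ᵐ X),
    MeasurePreserving T μ μ → ∀ f g : X → ℂ, MemLp f ⊤ μ → MemLp g ⊤ μ →
      ∀ᵐ x ∂μ, ∃ l : ℂ, Tendsto (fun N => avg T f g w N x) atTop (𝓝 l)

/-- the weight `w` is good and all limits are zero -/
def NullWeight (w : ℕ → ℂ) : Prop :=
  ∀ (X : Type u) [MeasurableSpace X] (μ : Measure X) [IsProbabilityMeasure μ] (T : X ≃ᵐ X),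
    MeasurePreserving T μ μ → ∀ f g : X → ℂ, MemLp f ⊤ μ → MemLp g ⊤ μ →
      ∀ᵐ x ∂μ, Tendsto (fun N => avg T f g w N x) atTop (𝓝 0)

/-- the point `ω` is good for `h` -/
def Good {Ω : Type v} [MeasurableSpace Ω] (S : Ω ≃ᵐ Ω) (h : Ω → ℂ) (ω : Ω) : Prop :=
  GoodWeight.{u} (fun n => h (S^[n] ω))

/-- the sigma-algebra of the sets `S^{-n} A`, `A` in `P`, for an integer `n` -/
@[reducible] def translate {Ω : Type v} (S : Equiv.Perm Ω) (P : MeasurableSpace Ω) (n : ℤ) :
    MeasurableSpace Ω :=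
  P.comap ⇑(S ^ n)

/-- the intersection of all translates -/
@[reducible] def tail {Ω : Type v} (S : Equiv.Perm Ω) (P : MeasurableSpace Ω) :
    MeasurableSpace Ω :=
  ⨅ n : ℤ, translate S P n

/-- the sigma-algebra generated by all translates -/
@[reducible] def span {Ω : Type v} (S : Equiv.Perm Ω) (P : MeasurableSpace Ω) :
    MeasurableSpace Ω :=
  ⨆ n : ℤ, translate S P n

/-- the translates of `P` form a chain: `S^{-1} P` is contained in `P` or contains `P` -/
def IsMono {Ω : Type v} (S : Equiv.Perm Ω) (P : MeasurableSpace Ω) : Prop :=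
  P.comap S ≤ P ∨ P ≤ P.comap S

/-- `P` is a Kolmogorov sigma-algebra: its translates form a chain, they generate all measurable
sets up to null sets, and their intersection is trivial -/
def IsKWith {Ω : Type v} (P : MeasurableSpace Ω) [m0 : MeasurableSpace Ω] (S : Ω ≃ᵐ Ω)
    (m : Measure Ω) : Prop :=
  P ≤ m0 ∧ IsMono S.toEquiv P ∧
    (∀ A, MeasurableSet[m0] A → ∃ B, MeasurableSet[span S.toEquiv P] B ∧ A =ᵐ[m] B) ∧
    (∀ A, MeasurableSet[tail S.toEquiv P] A → m A = 0 ∨ m A = 1)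

/-- Kolmogorov systems -/
def IsK {Ω : Type v} [m0 : MeasurableSpace Ω] (S : Ω ≃ᵐ Ω) (m : Measure Ω) : Prop :=
  ∃ P : MeasurableSpace Ω, @IsKWith Ω P m0 S m

end Pool.Agent.H85.RT
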