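import Pool.Agent.H85.RT.Rand

/-!
# Conditional expectations along monotone sequences of sigma-algebras
-/

namespace Pool.Agent.H85.RT

open MeasureTheory Finset Filter Topology

theorem int_mul_condExp {Ω : Type*} {L : MeasurableSpace Ω} [m0 : MeasurableSpace Ω]
    {m : Measure Ω} [IsProbabilityMeasure m] (hL : L ≤ m0) {F Z : Ω → ℝ} (hF : Integrable F m)
    (hZ : StronglyMeasurable[L] Z) {C : ℝ} (hZb : ∀ᵐ ω ∂m, |Z ω| ≤ C) :
    ∫ ω, F ω * Z ω ∂m = ∫ ω, (m[F | L]) ω * Z ω ∂m := by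
  have hZ0 : AEStronglyMeasurable Z m := (hZ.mono hL).aestronglyMeasurable
  have hFZ : Integrable (F * Z) m := hF.mul_bdd hZ0 (c := C) (by simpa [Real.norm_eq_abs] using hZb)
  have h1 := condExp_mul_of_stronglyMeasurable_right (m := L) (μ := m) hZ hFZ hF
  have h2 := integral_condExp (μ := m) (f := F * Z) hL
  calc ∫ ω, F ω * Z ω ∂m = ∫ ω, (m[F * Z | L]) ω ∂m := by rw [h2]; rfl
    _ = ∫ ω, (m[F | L]) ω * Z ω ∂m := integral_congr_ae h1

theorem upward {Ω : Type*} [m0 : MeasurableSpace Ω] {m : Measure Ω} [IsProbabilityMeasure m]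
    (Hs : ℕ → MeasurableSpace Ω) (hmono : Monotone Hs) (hle : ∀ k, Hs k ≤ m0) (h : Ω → ℝ) :
    Tendsto (fun k => ∫ ω, |(m[h | Hs k]) ω - (m[h | ⨆ k, Hs k]) ω| ∂m) atTop (𝓝 0) := by
  set F : Filtration ℕ m0 := ⟨Hs, hmono, hle⟩ with hF
  have h1 := tendsto_eLpNorm_condExp (μ := m) (ℱ := F) h
  have h2 := (ENNReal.tendsto_toReal (by simp : (0 : ENNReal) ≠ ⊤)).comp h1
  simp only [ENNReal.toReal_zero] at h2
  refine h2.congr fun k => ?_
  have hi : Integrable (m[h | F k] - m[h | ⨆ n, F n]) m := integrable_condExp.sub integrable_condExp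
  have h3 := integral_norm_eq_lintegral_enorm hi.aestronglyMeasurable
  simp only [Function.comp_apply]
  rw [eLpNorm_one_eq_lintegral_enorm, ← h3]
  rfl

theorem downward {Ω : Type*} [m0 : MeasurableSpace Ω] {m : Measure Ω} [IsProbabilityMeasure m]
    (Ls : ℕ → MeasurableSpace Ω) (hanti : Antitone Ls) (hle : ∀ k, Ls k ≤ m0) {h : Ω → ℝ}
    (hm : Measurable h) {C : ℝ} (hb : ∀ ω, |h ω| ≤ C) {ε : ℝ} (hε : 0 < ε) (K : ℕ) :
    ∃ k, K ≤ k ∧ ∫ ω, |(m[h | Ls k]) ω - (m[h | ⨅ k, Ls k]) ω| ∂m ≤ ε := by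
  have hh : Integrable h m := int_of_bdd hm (C := (C : ℝ)) hb
  set p : ℕ → Ω → ℝ := fun k => m[h | Ls k] with hp
  have hpi : ∀ k, Integrable (p k) m := fun k => integrable_condExp
  have hpb : ∀ k, ∀ᵐ ω ∂m, |p k ω| ≤ C := fun k =>
    ae_bdd_abs_condExp_of_ae_bdd_abs (Eventually.of_forall hb)
  have hpm : ∀ k, StronglyMeasurable[Ls k] (p k) := fun k => stronglyMeasurable_condExp
  have hpmul : ∀ j k, Integrable (fun ω => p j ω * p k ω) m := by
    intro j k
    exact (hpi j).mul_bdd (hpi k).aestronglyMeasurable (c := C)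
      (by simpa [Real.norm_eq_abs] using hpb k)
  have hcross : ∀ j k, j ≤ k → ∫ ω, p j ω * p k ω ∂m = ∫ ω, p k ω * p k ω ∂m := by
    intro j k hjk
    rw [int_mul_condExp (hle k) (hpi j) (hpm k) (hpb k)]
    refine integral_congr_ae ?_
    have h1 : m[m[h | Ls j] | Ls k] =ᵐ[m] m[h | Ls k] :=
      condExp_condExp_of_le (hanti hjk) (hle j)
    filter_upwards [h1] with ω hω
    rw [hω]
  set a : ℕ → ℝ := fun k => ∫ ω, p k ω * p k ω ∂m with ha
  have hdiff : ∀ j k, j ≤ k → ∫ ω, (p j ω - p k ω) ^ 2 ∂m = a j - a k := by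
    intro j k hjk
    have e : ∀ ω, (p j ω - p k ω) ^ 2 = p j ω * p j ω - 2 * (p j ω * p k ω) + p k ω * p k ω := by
      intro ω; ring
    simp_rw [e]
    have i1 : Integrable (fun ω => p j ω * p j ω - 2 * (p j ω * p k ω)) m :=
      (hpmul j j).sub ((hpmul j k).const_mul 2)
    rw [integral_add i1 (hpmul k k),
      integral_sub (hpmul j j) ((hpmul j k).const_mul 2), integral_const_mul, hcross j k hjk]
    simp only [ha]
    ring
  have hanti' : Antitone a := by
    intro j k hjk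
    have h1 := hdiff j k hjk
    have h2 : 0 ≤ ∫ ω, (p j ω - p k ω) ^ 2 ∂m := integral_nonneg fun ω => sq_nonneg _
    linarith
  have ha0 : ∀ k, 0 ≤ a k := fun k => integral_nonneg fun ω => mul_self_nonneg _
  have hbdd : BddBelow (Set.range a) := ⟨0, by rintro _ ⟨k, rfl⟩; exact ha0 k⟩
  have hlim := tendsto_atTop_ciInf hanti' hbdd
  set ai := ⨅ k, a k with hai
  have hge : ∀ k, ai ≤ a k := fun k => ciInf_le hbdd k
  have hev : ∀ i : ℕ, ∀ᶠ k in atTop, a k < ai + (1 / 16 : ℝ) ^ i := fun i =>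
    hlim.eventually (gt_mem_nhds (by linarith [pow_pos (by norm_num : (0 : ℝ) < 1 / 16) i]))
  obtain ⟨φ, hφ, hφa⟩ := extraction_forall_of_eventually hev
  have hφi : ∀ i, i ≤ φ i := hφ.id_le
  have hL1 : ∀ i, ∫ ω, |p (φ i) ω - p (φ (i + 1)) ω| ∂m ≤ (1 / 4 : ℝ) ^ i := by
    intro i
    have h1 := hdiff (φ i) (φ (i + 1)) (hφ.monotone (Nat.le_succ i))
    have h2 : ∫ ω, (p (φ i) ω - p (φ (i + 1)) ω) ^ 2 ∂m ≤ (1 / 16 : ℝ) ^ i := by
      rw [h1]; linarith [hφa i, hge (φ (i + 1))]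
    have hs : (0 : ℝ) < 4 ^ i := by positivity
    have hsq : Integrable (fun ω => (p (φ i) ω - p (φ (i + 1)) ω) ^ 2) m := by
      have e : ∀ ω, (p (φ i) ω - p (φ (i + 1)) ω) ^ 2 = p (φ i) ω * p (φ i) ω -
          2 * (p (φ i) ω * p (φ (i + 1)) ω) + p (φ (i + 1)) ω * p (φ (i + 1)) ω := by
        intro ω; ring
      simp_rw [e]
      exact ((hpmul _ _).sub ((hpmul _ _).const_mul 2)).add (hpmul _ _)
    calc ∫ ω, |p (φ i) ω - p (φ (i + 1)) ω| ∂m
        ≤ ∫ ω, (4 ^ i / 2 * (p (φ i) ω - p (φ (i + 1)) ω) ^ 2 + 1 / (2 * 4 ^ i)) ∂m := by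
          refine integral_mono ((hpi _).sub (hpi _)).abs
            ((hsq.const_mul _).add (integrable_const _)) fun ω => ?_
          set y := |p (φ i) ω - p (φ (i + 1)) ω| with hy
          have e1 : (p (φ i) ω - p (φ (i + 1)) ω) ^ 2 = y ^ 2 := by rw [hy, sq_abs]
          simp only [e1]
          have h3 : (4 : ℝ) ^ i / 2 * y ^ 2 + 1 / (2 * 4 ^ i) - y = (4 ^ i * y - 1) ^ 2 / (2 * 4 ^ i) := by
            field_simp
            ring
          have : 0 ≤ ((4 : ℝ) ^ i * y - 1) ^ 2 / (2 * 4 ^ i) := by positivity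
          linarith
      _ = 4 ^ i / 2 * (∫ ω, (p (φ i) ω - p (φ (i + 1)) ω) ^ 2 ∂m) + 1 / (2 * 4 ^ i) := by
          rw [integral_add (hsq.const_mul _) (integrable_const _), integral_const_mul]
          simp
      _ ≤ 4 ^ i / 2 * (1 / 16 : ℝ) ^ i + 1 / (2 * 4 ^ i) :=
          add_le_add (mul_le_mul_of_nonneg_left h2 (by positivity)) le_rfl
      _ = (1 / 4 : ℝ) ^ i := by
          have e16 : (1 / 16 : ℝ) ^ i = (1 / 4 : ℝ) ^ i * (1 / 4 : ℝ) ^ i := by
            rw [← mul_pow]; norm_num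
          have e4 : (1 / 4 : ℝ) ^ i = 1 / 4 ^ i := by rw [one_div_pow]
          rw [e16, e4]
          field_simp
          norm_num
  have hsum := ae_summable (μ := m) (r := fun i ω => |p (φ i) ω - p (φ (i + 1)) ω|)
    (c := fun i => (1 / 4 : ℝ) ^ i) (fun i ω => abs_nonneg _)
    (fun i => ((hpi _).sub (hpi _)).abs)
    (summable_geometric_of_lt_one (by norm_num) (by norm_num)) hL1
  set P : Ω → ℝ := fun ω => limsup (fun i => p (φ i) ω) atTop with hP
  have hconv : ∀ᵐ ω ∂m, Tendsto (fun i => p (φ i) ω) atTop (𝓝 (P ω)) := by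
    filter_upwards [hsum] with ω hω
    have h1 : CauchySeq (fun i => p (φ i) ω) :=
      cauchySeq_of_summable_dist (by simpa [Real.dist_eq] using hω)
    obtain ⟨y, hy⟩ := cauchySeq_tendsto_of_complete h1
    have : P ω = y := hy.limsup_eq
    rw [this]
    exact hy
  have hPm : ∀ j, Measurable[Ls j] P := by
    intro j
    have e : P = fun ω => limsup (fun i => p (φ (i + j)) ω) atTop := by
      funext ω
      exact (limsup_nat_add (fun i => p (φ i) ω) j).symm
    rw [e]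
    refine Measurable.limsup fun i => ?_
    have h1 : Ls (φ (i + j)) ≤ Ls j := hanti ((Nat.le_add_left j i).trans (hφi _))
    exact ((hpm (φ (i + j))).mono h1).measurable
  have hPm' : Measurable[⨅ k, Ls k] P := by
    intro s hs
    rw [MeasurableSpace.measurableSet_iInf]
    exact fun j => hPm j hs
  have hinf : (⨅ k, Ls k) ≤ m0 := (iInf_le Ls 0).trans (hle 0)
  have hP0 : Measurable P := hPm'.mono hinf le_rfl
  have hPb : ∀ᵐ ω ∂m, |P ω| ≤ C := by
    filter_upwards [hconv, ae_all_iff.mpr hpb] with ω h1 h2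
    exact le_of_tendsto h1.abs (Eventually.of_forall fun i => h2 (φ i))
  have hPi : Integrable P m :=
    (integrable_const (C : ℝ)).mono' hP0.aestronglyMeasurable
      (by simpa [Real.norm_eq_abs] using hPb)
  have hPeq : P =ᵐ[m] m[h | ⨅ k, Ls k] := by
    refine ae_eq_condExp_of_forall_setIntegral_eq hinf hh (fun s _ _ => hPi.integrableOn)
      (fun s hs _ => ?_) hPm'.stronglyMeasurable.aestronglyMeasurable
    have hsk : ∀ k, MeasurableSet[Ls k] s := fun k => MeasurableSpace.measurableSet_iInf.mp hs k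
    have h1 : Tendsto (fun i => ∫ ω in s, p (φ i) ω ∂m) atTop (𝓝 (∫ ω in s, P ω ∂m)) := by
      refine tendsto_integral_of_dominated_convergence (fun _ => (C : ℝ))
        (fun i => (hpi (φ i)).aestronglyMeasurable.restrict) (integrable_const _) (fun i => ?_)
        (ae_restrict_of_ae hconv)
      exact ae_restrict_of_ae (by simpa [Real.norm_eq_abs] using hpb (φ i))
    have h2 : ∀ i, ∫ ω in s, p (φ i) ω ∂m = ∫ ω in s, h ω ∂m := fun i =>
      setIntegral_condExp (hle _) hh (hsk _)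
    simp_rw [h2] at h1
    exact tendsto_nhds_unique tendsto_const_nhds h1 |>.symm
  have hfin : Tendsto (fun i => ∫ ω, |p (φ i) ω - P ω| ∂m) atTop (𝓝 0) := by
    have h1 := tendsto_integral_of_dominated_convergence (μ := m)
      (F := fun i ω => |p (φ i) ω - P ω|) (f := fun _ => (0 : ℝ)) (fun _ => (C : ℝ) + C)
      (fun i => ((hpi (φ i)).aestronglyMeasurable.sub hP0.aestronglyMeasurable).norm)
      (integrable_const _) (fun i => ?_) ?_
    · simpa using h1
    · filter_upwards [hpb (φ i), hPb] with ω h2 h3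
      rw [Real.norm_eq_abs, abs_abs]
      exact (abs_sub _ _).trans (add_le_add h2 h3)
    · filter_upwards [hconv] with ω h2
      have h3 := (h2.sub_const (P ω)).abs
      simpa using h3
  have hev2 := (hfin.eventually (gt_mem_nhds hε)).and (eventually_ge_atTop K)
  obtain ⟨i, hi1, hi2⟩ := hev2.exists
  refine ⟨φ i, hi2.trans (hφi i), ?_⟩
  refine (le_of_eq (integral_congr_ae ?_)).trans hi1.le
  filter_upwards [hPeq] with ω hω
  rw [hω]

end Pool.Agent.H85.RT
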