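import Pool.Agent.H85.RT.Rand

/-!
# A maximal inequality and approximation of weights
-/

namespace Pool.Agent.H85.RT

open MeasureTheory Finset Filter Topology

universe u

variable {Ω : Type*} [MeasurableSpace Ω] {m : Measure Ω} [IsProbabilityMeasure m]

/-- maximal partial sums -/
noncomputable def FM (S : Ω → Ω) (φ : Ω → ℝ) : ℕ → Ω → ℝ
  | 0 => fun _ => 0
  | N + 1 => fun ω => max 0 (φ ω + FM S φ N (S ω))

omit [MeasurableSpace Ω] in
theorem FM_nonneg (S : Ω → Ω) (φ : Ω → ℝ) (N : ℕ) (ω : Ω) : 0 ≤ FM S φ N ω := by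
  cases N with
  | zero => simp [FM]
  | succ N => simp [FM]

omit [MeasurableSpace Ω] in
theorem FM_mono (S : Ω → Ω) (φ : Ω → ℝ) (N : ℕ) (ω : Ω) : FM S φ N ω ≤ FM S φ (N + 1) ω := by
  induction N generalizing ω with
  | zero => exact FM_nonneg S φ 1 ω
  | succ N ih =>
    show max 0 (φ ω + FM S φ N (S ω)) ≤ max 0 (φ ω + FM S φ (N + 1) (S ω))
    exact max_le_max le_rfl (by linarith [ih (S ω)])

omit [MeasurableSpace Ω] in
theorem sum_le_FM (S : Ω → Ω) (φ : Ω → ℝ) (N : ℕ) (ω : Ω) :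
    ∑ n ∈ range N, φ (S^[n] ω) ≤ FM S φ N ω := by
  induction N generalizing ω with
  | zero => simp [FM]
  | succ N ih =>
    rw [Finset.sum_range_succ']
    show _ ≤ max 0 (φ ω + FM S φ N (S ω))
    refine le_trans ?_ (le_max_right _ _)
    have := ih (S ω)
    simp only [Function.iterate_succ, Function.comp_apply, Function.iterate_zero, id]
    linarith

theorem FM_meas {S : Ω → Ω} (hS : Measurable S) {φ : Ω → ℝ} (hφ : Measurable φ) (N : ℕ) :
    Measurable (FM S φ N) := by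
  induction N with
  | zero => exact measurable_const
  | succ N ih => exact measurable_const.max (hφ.add (ih.comp hS))

omit [MeasurableSpace Ω] in
theorem FM_bdd {S : Ω → Ω} {φ : Ω → ℝ} {K : ℝ} (hK : ∀ ω, |φ ω| ≤ K) (N : ℕ) (ω : Ω) :
    |FM S φ N ω| ≤ N * K := by
  have hK0 : 0 ≤ K := (abs_nonneg _).trans (hK ω)
  rw [abs_of_nonneg (FM_nonneg S φ N ω)]
  induction N generalizing ω with
  | zero => simp [FM]
  | succ N ih =>
    show max 0 (φ ω + FM S φ N (S ω)) ≤ _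
    refine max_le (by positivity) ?_
    have h1 := ih (S ω)
    have h2 := (abs_le.mp (hK ω)).2
    push_cast
    linarith

/-- the maximal inequality -/
theorem maxi {S : Ω → Ω} (hS : MeasurePreserving S m m) {ψ : Ω → ℝ} (hψ : Measurable ψ)
    (h0 : ∀ ω, 0 ≤ ψ ω) {K : ℝ} (hK : ∀ ω, ψ ω ≤ K) {l : ℝ} (hl : 0 < l) :
    m {ω | ∃ N : ℕ, l * N < ∑ n ∈ range N, ψ (S^[n] ω)} ≤
      ENNReal.ofReal ((∫ ω, ψ ω ∂m) / l) := by
  set φ : Ω → ℝ := fun ω => ψ ω - l with hφ
  have hφm : Measurable φ := hψ.sub_const l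
  have hφb : ∀ ω, |φ ω| ≤ K + l := by
    intro ω
    rw [abs_le]
    constructor
    · have := h0 ω; have := hK ω; simp only [hφ]; linarith
    · have := h0 ω; have := hK ω; simp only [hφ]; linarith
  have hFm := FM_meas hS.measurable hφm
  have hFi : ∀ N, Integrable (FM S φ N) m := fun N =>
    int_of_bdd (hFm N) (C := N * (K + l)) fun ω => FM_bdd hφb N ω
  have hsub : {ω | ∃ N : ℕ, l * N < ∑ n ∈ range N, ψ (S^[n] ω)} ⊆
      ⋃ N, {ω | 0 < FM S φ N ω} := by
    rintro ω ⟨N, hN⟩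
    refine Set.mem_iUnion.mpr ⟨N, ?_⟩
    refine lt_of_lt_of_le ?_ (sum_le_FM S φ N ω)
    simp only [hφ, Finset.sum_sub_distrib, Finset.sum_const, card_range, nsmul_eq_mul]
    linarith
  have hmono : Monotone (fun N => {ω | 0 < FM S φ N ω}) := by
    refine monotone_nat_of_le_succ fun N ω hω => ?_
    exact lt_of_lt_of_le hω (FM_mono S φ N ω)
  refine (measure_mono hsub).trans ?_
  rw [hmono.measure_iUnion]
  refine iSup_le fun N => ?_
  refine (measure_mono (hmono (Nat.le_succ N))).trans ?_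
  -- the estimate for `N + 1`
  set E : Set Ω := {ω | 0 < FM S φ (N + 1) ω} with hE
  have hEm : MeasurableSet E := measurableSet_lt measurable_const (hFm (N + 1))
  have hpt : ∀ ω, l * E.indicator (fun _ => (1 : ℝ)) ω ≤
      ψ ω - FM S φ (N + 1) ω + FM S φ N (S ω) := by
    intro ω
    by_cases hω : ω ∈ E
    · rw [Set.indicator_of_mem hω]
      have h1 : 0 < max 0 (φ ω + FM S φ N (S ω)) := hω
      have h2 : FM S φ (N + 1) ω = φ ω + FM S φ N (S ω) := by
        show max 0 (φ ω + FM S φ N (S ω)) = _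
        rw [lt_max_iff] at h1
        exact max_eq_right (by rcases h1 with h1 | h1; · exact absurd h1 (lt_irrefl _)
                               · exact h1.le)
      rw [h2]
      simp only [hφ]
      linarith
    · rw [Set.indicator_of_notMem hω]
      have h1 : FM S φ (N + 1) ω = 0 := by
        have h2 := FM_nonneg S φ (N + 1) ω
        have h3 : ¬ 0 < FM S φ (N + 1) ω := hω
        linarith [not_lt.mp h3]
      rw [h1]
      have := h0 ω
      have := FM_nonneg S φ N (S ω)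
      linarith
  have hψi : Integrable ψ m := int_of_bdd hψ (C := K) fun ω => by
    rw [abs_of_nonneg (h0 ω)]; exact hK ω
  have hcomp : Integrable (fun ω => FM S φ N (S ω)) m :=
    int_of_bdd ((hFm N).comp hS.measurable) (C := N * (K + l)) fun ω => FM_bdd hφb N _
  have hint : ∫ ω, FM S φ N (S ω) ∂m = ∫ ω, FM S φ N ω ∂m := by
    have := integral_map (μ := m) hS.measurable.aemeasurable (f := FM S φ N)
      (by rw [hS.map_eq]; exact (hFm N).aestronglyMeasurable)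
    rw [hS.map_eq] at this
    exact this.symm
  have h1 : l * m.real E ≤ ∫ ω, ψ ω ∂m := by
    have h2 : ∫ ω, l * E.indicator (fun _ => (1 : ℝ)) ω ∂m = l * m.real E := by
      rw [integral_const_mul, integral_indicator hEm]
      simp
    have hEi : Integrable (fun ω => l * E.indicator (fun _ => (1 : ℝ)) ω) m :=
      ((integrable_const (1 : ℝ)).indicator hEm).const_mul l
    have h3 := integral_mono hEi ((hψi.sub (hFi (N + 1))).add hcomp) (fun ω => hpt ω)
    rw [h2] at h3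
    have h4 : ∫ ω, (ψ - FM S φ (N + 1) + fun ω => FM S φ N (S ω)) ω ∂m =
        ∫ ω, ψ ω ∂m - ∫ ω, FM S φ (N + 1) ω ∂m + ∫ ω, FM S φ N ω ∂m := by
      rw [integral_add' (hψi.sub (hFi (N + 1))) hcomp, integral_sub' hψi (hFi (N + 1)), hint]
    have h5 : ∫ ω, FM S φ N ω ∂m ≤ ∫ ω, FM S φ (N + 1) ω ∂m :=
      integral_mono (hFi N) (hFi (N + 1)) (fun ω => FM_mono S φ N ω)
    rw [h4] at h3
    linarith
  have h6 : m.real E ≤ (∫ ω, ψ ω ∂m) / l := by
    rw [le_div_iff₀ hl]; linarith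
  have h7 : m E = ENNReal.ofReal (m.real E) := by
    rw [measureReal_def, ENNReal.ofReal_toReal (measure_ne_top m E)]
  have h8 : m {ω | 0 < FM S φ N.succ ω} = m E := rfl
  rw [h8, h7]
  exact ENNReal.ofReal_le_ofReal h6

/-- approximation in `L¹` along the orbit -/
theorem null_approx {S : Ω → Ω} (hS : MeasurePreserving S m m) {h : Ω → ℝ} (hm : Measurable h)
    {C : ℝ} (hb : ∀ ω, |h ω| ≤ C)
    (happ : ∀ ε : ℝ, 0 < ε → ∃ d : Ω → ℝ, Measurable d ∧ (∀ ω, |d ω| ≤ 1) ∧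
      ∫ ω, |h ω - d ω| ∂m ≤ ε ∧ ∀ᵐ ω ∂m, NullR.{u} (fun n => d (S^[n] ω))) :
    ∀ᵐ ω ∂m, NullR.{u} (fun n => h (S^[n] ω)) := by
  choose! D hD1 hD2 hD3 hD4 using happ
  set d : ℕ → Ω → ℝ := fun i => D ((1 / 4 : ℝ) ^ i) with hd
  have hpos : ∀ i : ℕ, (0 : ℝ) < (1 / 4 : ℝ) ^ i := fun i => by positivity
  have hpos2 : ∀ i : ℕ, (0 : ℝ) < (1 / 2 : ℝ) ^ i := fun i => by positivity
  set s : ℕ → Set Ω := fun i => {ω | ∃ N : ℕ, (1 / 2 : ℝ) ^ i * N <
    ∑ n ∈ range N, (fun ω => |h ω - d i ω|) (S^[n] ω)} with hs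
  have hms : ∀ i, m (s i) ≤ ENNReal.ofReal ((1 / 2 : ℝ) ^ i) := by
    intro i
    refine (maxi hS (ψ := fun ω => |h ω - d i ω|) (hm.sub (hD1 _ (hpos i))).abs
      (fun ω => abs_nonneg _) (K := C + 1) (fun ω => ?_) (hpos2 i)).trans ?_
    · refine (abs_sub _ _).trans ?_
      exact add_le_add (hb ω) (hD2 _ (hpos i) ω)
    · refine ENNReal.ofReal_le_ofReal ?_
      rw [div_le_iff₀ (hpos2 i)]
      refine (hD3 _ (hpos i)).trans (le_of_eq ?_)
      rw [← mul_pow]
      norm_num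
  have hsum : ∑' i, m (s i) ≠ ⊤ := by
    refine ne_top_of_le_ne_top ?_ (ENNReal.tsum_le_tsum hms)
    exact (summable_geometric_of_lt_one (by norm_num) (by norm_num)).tsum_ofReal_ne_top
  have hall : ∀ᵐ ω ∂m, ∀ i, NullR.{u} (fun n => d i (S^[n] ω)) :=
    ae_all_iff.mpr fun i => hD4 _ (hpos i)
  filter_upwards [ae_eventually_notMem hsum, hall] with ω h1 h2
  intro X _ μ _ T hT f g hf hg hfb hgb
  have h3 : ∀ᵐ x ∂μ, ∀ i, Tendsto (fun N : ℕ => (∑ n ∈ range N, d i (S^[n] ω) *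
      (f (T^[n] x) * g (T.symm^[n] x))) / N) atTop (𝓝 0) :=
    ae_all_iff.mpr fun i => h2 i X μ T hT f g hf hg hfb hgb
  filter_upwards [h3] with x hx
  rw [Metric.tendsto_atTop]
  intro ε hε
  obtain ⟨i0, hi0⟩ := eventually_atTop.mp h1
  obtain ⟨i1, hi1⟩ := exists_pow_lt_of_lt_one (half_pos hε) (by norm_num : (1 / 2 : ℝ) < 1)
  set i := max i0 i1 with hi
  have hpi : (1 / 2 : ℝ) ^ i < ε / 2 :=
    lt_of_le_of_lt (pow_le_pow_of_le_one (by norm_num) (by norm_num) (le_max_right _ _)) hi1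
  have hns := hi0 i (le_max_left _ _)
  have hns' : ∀ N : ℕ, ∑ n ∈ range N, |h (S^[n] ω) - d i (S^[n] ω)| ≤ (1 / 2 : ℝ) ^ i * N := by
    intro N
    by_contra hc
    exact hns ⟨N, not_le.mp hc⟩
  obtain ⟨N0, hN0⟩ := (Metric.tendsto_atTop.mp (hx i)) (ε / 2) (half_pos hε)
  refine ⟨max N0 1, fun N hN => ?_⟩
  have hN1 : 0 < N := lt_of_lt_of_le one_pos ((le_max_right _ _).trans hN)
  have hN' : (0 : ℝ) < N := by exact_mod_cast hN1
  have h4 := hN0 N ((le_max_left _ _).trans hN)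
  rw [dist_zero_right, Real.norm_eq_abs] at h4 ⊢
  have h5 : |(∑ n ∈ range N, h (S^[n] ω) * (f (T^[n] x) * g (T.symm^[n] x))) / N -
      (∑ n ∈ range N, d i (S^[n] ω) * (f (T^[n] x) * g (T.symm^[n] x))) / N| ≤
      (1 / 2 : ℝ) ^ i := by
    rw [← sub_div, ← Finset.sum_sub_distrib, abs_div, Nat.abs_cast, div_le_iff₀ hN']
    refine (Finset.abs_sum_le_sum_abs _ _).trans (le_trans ?_ (hns' N))
    refine Finset.sum_le_sum fun n _ => ?_
    rw [← sub_mul, abs_mul]
    refine mul_le_of_le_one_right (abs_nonneg _) ?_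
    rw [abs_mul]
    exact mul_le_one₀ (hfb _) (abs_nonneg _) (hgb _)
  have h6 := abs_le.mp h5
  have h7 := abs_lt.mp h4
  rw [abs_lt]
  constructor
  · linarith [h6.1, h7.1]
  · linarith [h6.2, h7.2]

end Pool.Agent.H85.RT
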