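import Pool.Agent.H85.RT.Cube
import Pool.Agent.H85.RT.Maxi
import Pool.Agent.H85.RT.Levy

/-!
# Weights orthogonal to the tail: real version
-/

namespace Pool.Agent.H85.RT

open MeasureTheory Finset Filter Topology

universe u

/-- truncation -/
noncomputable def clip (x : ℝ) : ℝ := max (-(1 / 2)) (min (1 / 2) x)

theorem clip_cont : Continuous clip := by
  unfold clip
  fun_prop

theorem clip_abs (x : ℝ) : |clip x| ≤ 1 / 2 := by
  unfold clip
  rw [abs_le]
  exact ⟨le_max_left _ _, max_le (by norm_num) (min_le_left _ _)⟩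

theorem clip_of {x : ℝ} (h : |x| ≤ 1 / 2) : clip x = x := by
  unfold clip
  rw [abs_le] at h
  rw [min_eq_right h.2, max_eq_right h.1]

theorem ae_orbit {Ω : Type*} [MeasurableSpace Ω] {m : Measure Ω} {E : Type*} {S : Ω → Ω}
    (hS : MeasurePreserving S m m) {u v : Ω → E} (h : u =ᵐ[m] v) :
    ∀ᵐ ω ∂m, ∀ n : ℕ, u (S^[n] ω) = v (S^[n] ω) := by
  rw [ae_all_iff]
  intro n
  exact (hS.iterate n).quasiMeasurePreserving.ae_eq h

theorem core {Ω : Type*} [m0 : MeasurableSpace Ω] {m : Measure Ω} [IsProbabilityMeasure m]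
    {S : Ω ≃ᵐ Ω} (hS : MeasurePreserving S m m) (R : Ω → Ω)
    (hcube : ∀ (L : MeasurableSpace Ω) (d : Ω → ℝ) (g : ℕ), Measurable[m0] d → (∀ ω, |d ω| ≤ 1) →
      (∀ i, g ≤ i → Measurable[L] (fun ω => d (R^[i] ω))) →
      (∀ Z : Ω → ℝ, Measurable[L] Z → (∀ ω, |Z ω| ≤ 1) → ∫ ω, d ω * Z ω ∂m = 0) →
      @Cube Ω m0 S m d g)
    (Hs Ls : ℕ → MeasurableSpace Ω) (hH : Monotone Hs) (hHle : ∀ k, Hs k ≤ m0)
    (hL : Antitone Ls) (hLH : ∀ k, Ls k ≤ Hs k)
    (hshift : ∀ k i, 2 * k ≤ i → ∀ d : Ω → ℝ, Measurable[Hs k] d →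
      Measurable[Ls k] (fun ω => d (R^[i] ω)))
    {h : Ω → ℝ} (hm : Measurable h) (hb : ∀ ω, |h ω| ≤ 1 / 2)
    (hspan : AEStronglyMeasurable[⨆ k, Hs k] h m) :
    ∀ᵐ ω ∂m, NullR.{u} (fun n => h (S^[n] ω) - (m[h | ⨅ k, Ls k]) (S^[n] ω)) := by
  have hLle : ∀ k, Ls k ≤ m0 := fun k => (hLH k).trans (hHle k)
  have hinf : (⨅ k, Ls k) ≤ m0 := (iInf_le Ls 0).trans (hLle 0)
  have hh : Integrable h m := int_of_bdd hm (C := 1 / 2) hb
  have hbd : ∀ M : MeasurableSpace Ω, ∀ᵐ ω ∂m, |(m[h | M]) ω| ≤ 1 / 2 := fun M =>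
    ae_bdd_abs_condExp_of_ae_bdd_abs (Eventually.of_forall hb)
  have hclip : ∀ M : MeasurableSpace Ω, (fun ω => clip ((m[h | M]) ω)) =ᵐ[m] m[h | M] := by
    intro M
    filter_upwards [hbd M] with ω hω
    exact clip_of hω
  have hcm : ∀ M : MeasurableSpace Ω, Measurable[M] (fun ω => clip ((m[h | M]) ω)) := fun M =>
    clip_cont.measurable.comp (stronglyMeasurable_condExp (μ := m) (m := M) (f := h)).measurable
  set h' : Ω → ℝ := fun ω => h ω - clip ((m[h | ⨅ k, Ls k]) ω) with hh'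
  have hmain : ∀ᵐ ω ∂m, NullR.{u} (fun n => h' (S^[n] ω)) := by
    refine null_approx hS (C := 1) ?_ ?_ ?_
    · exact hm.sub ((hcm _).mono hinf le_rfl)
    · intro ω
      refine (abs_sub _ _).trans ?_
      have h1 := hb ω
      have h2 := clip_abs ((m[h | ⨅ k, Ls k]) ω)
      linarith
    · intro ε hε
      have hup := upward (m := m) Hs hH hHle h
      obtain ⟨K, hK⟩ := eventually_atTop.mp (hup.eventually (gt_mem_nhds (half_pos hε)))
      obtain ⟨k, hkK, hk⟩ := downward (m := m) Ls hL hLle hm hb (half_pos hε) K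
      have hk2 := hK k hkK
      set d : Ω → ℝ := fun ω => clip ((m[h | Hs k]) ω) - clip ((m[h | Ls k]) ω) with hd
      have hdH : Measurable[Hs k] d :=
        (hcm (Hs k)).sub ((hcm (Ls k)).mono (hLH k) le_rfl)
      have hdm : Measurable d := hdH.mono (hHle k) le_rfl
      have hdb : ∀ ω, |d ω| ≤ 1 := by
        intro ω
        refine (abs_sub _ _).trans ?_
        have h1 := clip_abs ((m[h | Hs k]) ω)
        have h2 := clip_abs ((m[h | Ls k]) ω)
        linarith
      refine ⟨d, hdm, hdb, ?_, ?_⟩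
      · have hspan' : m[h | ⨆ k, Hs k] =ᵐ[m] h :=
          condExp_of_aestronglyMeasurable' (iSup_le hHle) hspan hh
        have e : (fun ω => |h' ω - d ω|) ≤ᵐ[m] fun ω =>
            |(m[h | Hs k]) ω - (m[h | ⨆ k, Hs k]) ω| + |(m[h | Ls k]) ω - (m[h | ⨅ k, Ls k]) ω| := by
          filter_upwards [hspan', hclip (Hs k), hclip (Ls k), hclip (⨅ k, Ls k)] with ω a1 a2 a3 a4
          rw [hh', hd]
          simp only
          rw [a1, a2, a3, a4]
          have e2 : h ω - (m[h | ⨅ k, Ls k]) ω - ((m[h | Hs k]) ω - (m[h | Ls k]) ω) =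
            ((m[h | Ls k]) ω - (m[h | ⨅ k, Ls k]) ω) - ((m[h | Hs k]) ω - h ω) := by ring
          rw [e2, add_comm]
          exact abs_sub _ _
        have i1 : Integrable (fun ω => |(m[h | Hs k]) ω - (m[h | ⨆ k, Hs k]) ω|) m :=
          (integrable_condExp.sub integrable_condExp).abs
        have i2 : Integrable (fun ω => |(m[h | Ls k]) ω - (m[h | ⨅ k, Ls k]) ω|) m :=
          (integrable_condExp.sub integrable_condExp).abs
        have i3 : Integrable (fun ω => |h' ω - d ω|) m :=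
          int_of_bdd ((hm.sub ((hcm _).mono hinf le_rfl)).sub hdm).abs (C := 2) fun ω => by
            rw [abs_abs]
            refine (abs_sub _ _).trans ?_
            have h1 := hdb ω
            have h2 : |h' ω| ≤ 1 := by
              refine (abs_sub _ _).trans ?_
              have h1 := hb ω
              have h2 := clip_abs ((m[h | ⨅ k, Ls k]) ω)
              linarith
            linarith
        have h1 := integral_mono_ae i3 (i1.add i2) e
        have h2 := integral_add i1 i2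
        have h3 : ∫ ω, ((fun ω => |(m[h | Hs k]) ω - (m[h | ⨆ k, Hs k]) ω|) +
            fun ω => |(m[h | Ls k]) ω - (m[h | ⨅ k, Ls k]) ω|) ω ∂m =
            ∫ ω, |(m[h | Hs k]) ω - (m[h | ⨆ k, Hs k]) ω| ∂m +
            ∫ ω, |(m[h | Ls k]) ω - (m[h | ⨅ k, Ls k]) ω| ∂m := h2
        rw [h3] at h1
        linarith
      · refine null_of_cube S.measurable hdm hdb (g := 2 * k) ?_
        refine hcube (Ls k) d (2 * k) hdm hdb (fun i hi => hshift k i hi d hdH) ?_
        intro Z hZ hZb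
        have hZs : StronglyMeasurable[Ls k] Z := hZ.stronglyMeasurable
        have hZs' : StronglyMeasurable[Hs k] Z := hZs.mono (hLH k)
        have hZbb : ∀ᵐ ω ∂m, |Z ω| ≤ 1 := Eventually.of_forall hZb
        have h1 := int_mul_condExp (m := m) (hHle k) hh hZs' hZbb
        have h2 := int_mul_condExp (m := m) (hLle k) hh hZs hZbb
        have hZ0 : AEStronglyMeasurable Z m := (hZs.mono (hLle k)).aestronglyMeasurable
        have j1 : Integrable (fun ω => (m[h | Hs k]) ω * Z ω) m :=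
          integrable_condExp.mul_bdd hZ0 (c := 1) (by simpa [Real.norm_eq_abs] using hZbb)
        have j2 : Integrable (fun ω => (m[h | Ls k]) ω * Z ω) m :=
          integrable_condExp.mul_bdd hZ0 (c := 1) (by simpa [Real.norm_eq_abs] using hZbb)
        calc ∫ ω, d ω * Z ω ∂m
            = ∫ ω, ((m[h | Hs k]) ω * Z ω - (m[h | Ls k]) ω * Z ω) ∂m := by
              refine integral_congr_ae ?_
              filter_upwards [hclip (Hs k), hclip (Ls k)] with ω a2 a3
              rw [hd]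
              simp only
              rw [a2, a3, sub_mul]
          _ = 0 := by rw [integral_sub j1 j2, ← h1, ← h2, sub_self]
  have horb := ae_orbit hS (hclip (⨅ k, Ls k))
  filter_upwards [hmain, horb] with ω a1 a2
  have e : (fun n => h (S^[n] ω) - (m[h | ⨅ k, Ls k]) (S^[n] ω)) = fun n => h' (S^[n] ω) := by
    funext n
    rw [hh']
    simp only
    rw [a2 n]
  rw [e]
  exact a1

section sig

variable {Ω : Type*} {P : MeasurableSpace Ω} [m0 : MeasurableSpace Ω]

theorem iter_comp_symm (S : Ω ≃ᵐ Ω) {i k : ℕ} (h : k ≤ i) :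
    S^[k] ∘ S.symm^[i] = S.symm^[i - k] := by
  funext x
  obtain ⟨j, rfl⟩ := Nat.exists_eq_add_of_le h
  rw [Nat.add_sub_cancel_left, Function.comp_apply, Function.iterate_add_apply]
  exact Function.RightInverse.iterate (fun x => S.apply_symm_apply x) k _

theorem sig_mono (S : Ω ≃ᵐ Ω) (hP : P ≤ P.comap S) : Monotone (fun k : ℕ => P.comap S^[k]) := by
  refine monotone_nat_of_le_succ fun k => ?_
  rw [Function.iterate_succ', ← MeasurableSpace.comap_comp]
  exact MeasurableSpace.comap_mono hP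

theorem sig_anti (S : Ω ≃ᵐ Ω) (hP : P ≤ P.comap S) :
    Antitone (fun k : ℕ => P.comap S.symm^[k]) := by
  refine antitone_nat_of_succ_le fun k => ?_
  rw [Function.iterate_succ', ← MeasurableSpace.comap_comp]
  refine MeasurableSpace.comap_mono ?_
  have h1 : P.comap S.symm ≤ (P.comap S).comap S.symm := MeasurableSpace.comap_mono hP
  rw [MeasurableSpace.comap_comp] at h1
  have h2 : (S : Ω → Ω) ∘ S.symm = id := by
    funext x; exact S.apply_symm_apply x
  rw [h2, MeasurableSpace.comap_id] at h1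
  exact h1

theorem sig_le (S : Ω ≃ᵐ Ω) (hP : P ≤ m0) (k : ℕ) : P.comap S^[k] ≤ m0 :=
  (MeasurableSpace.comap_mono hP).trans (S.measurable.iterate k).comap_le

theorem sig_LH (S : Ω ≃ᵐ Ω) (hP : P ≤ P.comap S) (k : ℕ) : P.comap S.symm^[k] ≤ P.comap S^[k] := by
  have h1 := sig_anti S hP (Nat.zero_le k)
  have h2 := sig_mono S hP (Nat.zero_le k)
  simp only [Function.iterate_zero, MeasurableSpace.comap_id] at h1 h2
  exact h1.trans h2

theorem sig_shift (S : Ω ≃ᵐ Ω) (hP : P ≤ P.comap S) (k i : ℕ) (hi : 2 * k ≤ i) (d : Ω → ℝ)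
    (hd : Measurable[P.comap S^[k]] d) :
    Measurable[P.comap S.symm^[k]] (fun ω => d (S.symm^[i] ω)) := by
  have h1 : Measurable[(P.comap S^[k]).comap S.symm^[i]] (fun ω => d (S.symm^[i] ω)) :=
    hd.comp (comap_measurable _)
  rw [MeasurableSpace.comap_comp, iter_comp_symm S (show k ≤ i by omega)] at h1
  exact h1.mono (sig_anti S hP (show k ≤ i - k by omega)) le_rfl

end sig

theorem core_past {Ω : Type*} {P : MeasurableSpace Ω} [m0 : MeasurableSpace Ω] {m : Measure Ω}
    [IsProbabilityMeasure m] {S : Ω ≃ᵐ Ω} (hS : MeasurePreserving S m m) (hP0 : P ≤ m0)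
    (hP : P ≤ P.comap S) {h : Ω → ℝ} (hm : Measurable h) (hb : ∀ ω, |h ω| ≤ 1 / 2)
    (hspan : AEStronglyMeasurable[⨆ k : ℕ, P.comap S^[k]] h m) :
    ∀ᵐ ω ∂m, NullR.{u} (fun n => h (S^[n] ω) -
      (m[h | ⨅ k : ℕ, P.comap S.symm^[k]]) (S^[n] ω)) :=
  core hS S.symm (fun L d g a b c e => @cube_past Ω L m0 m S hS d g a b c e) (fun k => P.comap S^[k])
    (fun k => P.comap S.symm^[k]) (sig_mono S hP) (sig_le S hP0) (sig_anti S hP) (sig_LH S hP)
    (sig_shift S hP) hm hb hspan

theorem core_future {Ω : Type*} {P : MeasurableSpace Ω} [m0 : MeasurableSpace Ω] {m : Measure Ω}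
    [IsProbabilityMeasure m] {S : Ω ≃ᵐ Ω} (hS : MeasurePreserving S m m) (hP0 : P ≤ m0)
    (hP : P.comap S ≤ P) {h : Ω → ℝ} (hm : Measurable h) (hb : ∀ ω, |h ω| ≤ 1 / 2)
    (hspan : AEStronglyMeasurable[⨆ k : ℕ, P.comap S.symm^[k]] h m) :
    ∀ᵐ ω ∂m, NullR.{u} (fun n => h (S^[n] ω) -
      (m[h | ⨅ k : ℕ, P.comap S^[k]]) (S^[n] ω)) := by
  have hP' : P ≤ P.comap S.symm := by
    have h1 : (P.comap S).comap S.symm ≤ P.comap S.symm := MeasurableSpace.comap_mono hP
    rw [MeasurableSpace.comap_comp] at h1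
    have h2 : (S : Ω → Ω) ∘ S.symm = id := by
      funext x; exact S.apply_symm_apply x
    rw [h2, MeasurableSpace.comap_id] at h1
    exact h1
  exact core hS S (fun L d g a b c e => @cube_future Ω L m0 m S hS d g a b c e) (fun k => P.comap S.symm^[k])
    (fun k => P.comap S^[k]) (sig_mono S.symm hP') (sig_le S.symm hP0) (sig_anti S.symm hP')
    (sig_LH S.symm hP') (sig_shift S.symm hP') hm hb hspan

end Pool.Agent.H85.RT
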