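import Pool.Agent.H85.RT.Rand

/-!
# Cube correlations of differences of martingale type
-/

namespace Pool.Agent.H85.RT

open MeasureTheory Finset Filter Topology

variable {Ω : Type*} {L : MeasurableSpace Ω} [m0 : MeasurableSpace Ω] {m : Measure Ω}


theorem sym_iter (S : Ω ≃ᵐ Ω) {i M : ℕ} (h : i ≤ M) (ω : Ω) :
    S.symm^[M - i] (S^[M] ω) = S^[i] ω := by
  have e : M = (M - i) + i := by omega
  have e2 : S^[M] ω = S^[M - i] (S^[i] ω) := by
    conv_lhs => rw [e]
    rw [Function.iterate_add_apply]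
  rw [e2]
  have : Function.LeftInverse S.symm^[M - i] S^[M - i] :=
    Function.LeftInverse.iterate (fun x => S.symm_apply_apply x) _
  exact this _

/-- the past case -/
theorem cube_past {S : Ω ≃ᵐ Ω} (hS : MeasurePreserving S m m) {d : Ω → ℝ} {g : ℕ}
    (hd : Measurable d) (hdb : ∀ ω, |d ω| ≤ 1)
    (h1 : ∀ i, g ≤ i → Measurable[L] (fun ω => d (S.symm^[i] ω)))
    (h2 : ∀ Z : Ω → ℝ, Measurable[L] Z → (∀ ω, |Z ω| ≤ 1) → ∫ ω, d ω * Z ω ∂m = 0) :
    Cube S m d g := by
  intro a a' b b' c c' ha hb hc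
  set M := a' + b' + c' with hM
  set Z : Ω → ℝ := fun ω =>
    (d (S.symm^[M - (a + b + c)] ω) * d (S.symm^[M - (a + b + c')] ω) *
      (d (S.symm^[M - (a + b' + c)] ω) * d (S.symm^[M - (a + b' + c')] ω))) *
    (d (S.symm^[M - (a' + b + c)] ω) * d (S.symm^[M - (a' + b + c')] ω) *
      (d (S.symm^[M - (a' + b' + c)] ω))) with hZ
  have hZm : Measurable[L] Z := by
    have i1 := h1 (M - (a + b + c)) (by omega)
    have i2 := h1 (M - (a + b + c')) (by omega)
    have i3 := h1 (M - (a + b' + c)) (by omega)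
    have i4 := h1 (M - (a + b' + c')) (by omega)
    have i5 := h1 (M - (a' + b + c)) (by omega)
    have i6 := h1 (M - (a' + b + c')) (by omega)
    have i7 := h1 (M - (a' + b' + c)) (by omega)
    exact ((i1.mul i2).mul (i3.mul i4)).mul ((i5.mul i6).mul i7)
  have hZb : ∀ ω, |Z ω| ≤ 1 := by
    intro ω
    simp only [hZ, abs_mul]
    refine mul_le_one₀ (mul_le_one₀ (mul_le_one₀ (hdb _) (abs_nonneg _) (hdb _)) (by positivity)
      (mul_le_one₀ (hdb _) (abs_nonneg _) (hdb _))) (by positivity)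
      (mul_le_one₀ (mul_le_one₀ (hdb _) (abs_nonneg _) (hdb _)) (by positivity) (hdb _))
  have e : ∀ ω, cubeP (fun n => d (S^[n] ω)) a a' b b' c c' =
      (fun x => d x * Z x) (S^[M] ω) := by
    intro ω
    simp only [hZ]
    rw [sym_iter S (show a + b + c ≤ M by omega), sym_iter S (show a + b + c' ≤ M by omega),
      sym_iter S (show a + b' + c ≤ M by omega), sym_iter S (show a + b' + c' ≤ M by omega),
      sym_iter S (show a' + b + c ≤ M by omega), sym_iter S (show a' + b + c' ≤ M by omega),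
      sym_iter S (show a' + b' + c ≤ M by omega)]
    unfold cubeP
    rw [hM]
    ring
  have hit := hS.iterate M
  have hZm0 : AEStronglyMeasurable (fun x => d x * Z x) m := by
    have hmm : ∀ i, Measurable (fun ω => d (S.symm^[i] ω)) := fun i =>
      hd.comp (S.symm.measurable.iterate i)
    have : Measurable Z := (((hmm _).mul (hmm _)).mul ((hmm _).mul (hmm _))).mul
      (((hmm _).mul (hmm _)).mul (hmm _))
    exact (hd.mul this).aestronglyMeasurable
  simp_rw [e]
  have hmap := integral_map (μ := m) hit.measurable.aemeasurable (f := fun x => d x * Z x)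
    (by rw [hit.map_eq]; exact hZm0)
  rw [hit.map_eq] at hmap
  rw [← hmap]
  exact h2 Z hZm hZb

/-- the future case -/
theorem cube_future {S : Ω ≃ᵐ Ω} (hS : MeasurePreserving S m m) {d : Ω → ℝ} {g : ℕ}
    (hd : Measurable d) (hdb : ∀ ω, |d ω| ≤ 1)
    (h1 : ∀ i, g ≤ i → Measurable[L] (fun ω => d (S^[i] ω)))
    (h2 : ∀ Z : Ω → ℝ, Measurable[L] Z → (∀ ω, |Z ω| ≤ 1) → ∫ ω, d ω * Z ω ∂m = 0) :
    Cube S m d g := by
  intro a a' b b' c c' ha hb hc
  set M := a + b + c with hM
  set Z : Ω → ℝ := fun ω =>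
    (d (S^[(a + b + c') - M] ω) *
      (d (S^[(a + b' + c) - M] ω) * d (S^[(a + b' + c') - M] ω))) *
    (d (S^[(a' + b + c) - M] ω) * d (S^[(a' + b + c') - M] ω) *
      (d (S^[(a' + b' + c) - M] ω) * d (S^[(a' + b' + c') - M] ω))) with hZ
  have hZm : Measurable[L] Z := by
    have i1 := h1 ((a' + b' + c') - M) (by omega)
    have i2 := h1 ((a + b + c') - M) (by omega)
    have i3 := h1 ((a + b' + c) - M) (by omega)
    have i4 := h1 ((a + b' + c') - M) (by omega)
    have i5 := h1 ((a' + b + c) - M) (by omega)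
    have i6 := h1 ((a' + b + c') - M) (by omega)
    have i7 := h1 ((a' + b' + c) - M) (by omega)
    exact (i2.mul (i3.mul i4)).mul ((i5.mul i6).mul (i7.mul i1))
  have hZb : ∀ ω, |Z ω| ≤ 1 := by
    intro ω
    simp only [hZ, abs_mul]
    refine mul_le_one₀ (mul_le_one₀ (hdb _) (by positivity)
      (mul_le_one₀ (hdb _) (abs_nonneg _) (hdb _))) (by positivity)
      (mul_le_one₀ (mul_le_one₀ (hdb _) (abs_nonneg _) (hdb _)) (by positivity)
        (mul_le_one₀ (hdb _) (abs_nonneg _) (hdb _)))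
  have hit2 : ∀ i ω, M ≤ i → S^[i - M] (S^[M] ω) = S^[i] ω := by
    intro i ω hi
    rw [← Function.iterate_add_apply]
    congr 2
    omega
  have e : ∀ ω, cubeP (fun n => d (S^[n] ω)) a a' b b' c c' =
      (fun x => d x * Z x) (S^[M] ω) := by
    intro ω
    simp only [hZ]
    rw [hit2 _ ω (show M ≤ a' + b' + c' by omega), hit2 _ ω (show M ≤ a + b + c' by omega),
      hit2 _ ω (show M ≤ a + b' + c by omega), hit2 _ ω (show M ≤ a + b' + c' by omega),
      hit2 _ ω (show M ≤ a' + b + c by omega), hit2 _ ω (show M ≤ a' + b + c' by omega),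
      hit2 _ ω (show M ≤ a' + b' + c by omega)]
    unfold cubeP
    rw [hM]
    ring
  have hit := hS.iterate M
  have hZm0 : AEStronglyMeasurable (fun x => d x * Z x) m := by
    have hmm : ∀ i, Measurable (fun ω => d (S^[i] ω)) := fun i =>
      hd.comp (S.measurable.iterate i)
    have : Measurable Z := ((hmm _).mul ((hmm _).mul (hmm _))).mul
      (((hmm _).mul (hmm _)).mul ((hmm _).mul (hmm _)))
    exact (hd.mul this).aestronglyMeasurable
  simp_rw [e]
  have hmap := integral_map (μ := m) hit.measurable.aemeasurable (f := fun x => d x * Z x)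
    (by rw [hit.map_eq]; exact hZm0)
  rw [hit.map_eq] at hmap
  rw [← hmap]
  exact h2 Z hZm hZb

end Pool.Agent.H85.RT
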