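import Pool.Agent.H85.RT.Core
import Pool.Agent.H85.RT.Defs

/-!
# From real bounded functions to complex essentially bounded functions
-/

namespace Pool.Agent.H85.RT

open MeasureTheory Finset Filter Topology

universe u

/-- sequences with Cesaro averages (starting from one) tending to zero -/
def Z0 (v : ℕ → ℂ) : Prop :=
  Tendsto (fun N : ℕ => (∑ n ∈ Finset.Icc 1 N, v n) / N) atTop (𝓝 0)

theorem Z0.add {v w : ℕ → ℂ} (hv : Z0 v) (hw : Z0 w) : Z0 (fun n => v n + w n) := by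
  unfold Z0 at *
  have := Tendsto.add hv hw
  rw [add_zero] at this
  refine this.congr fun N => ?_
  rw [Finset.sum_add_distrib, add_div]

theorem Z0.mul {v : ℕ → ℂ} (hv : Z0 v) (c : ℂ) : Z0 (fun n => c * v n) := by
  unfold Z0 at *
  have := Tendsto.const_mul c hv
  rw [mul_zero] at this
  refine this.congr fun N => ?_
  rw [← Finset.mul_sum]
  ring

theorem Z0.congr {v w : ℕ → ℂ} (hv : Z0 v) (h : ∀ n, w n = v n) : Z0 w := by
  have : w = v := funext h
  rw [this]
  exact hv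

theorem Z0_of_range {v : ℕ → ℝ}
    (h : Tendsto (fun N : ℕ => (∑ n ∈ range N, v n) / N) atTop (𝓝 0)) :
    Z0 (fun n => (v n : ℂ)) := by
  have h1 : Tendsto (fun N : ℕ => (∑ n ∈ Finset.Icc 1 N, v n) / N) atTop (𝓝 0) := by
    have h2 := h.comp (tendsto_add_atTop_nat 1)
    have h3 : Tendsto (fun N : ℕ => ((N : ℝ) + 1) / N) atTop (𝓝 1) := by
      have h4 : Tendsto (fun N : ℕ => 1 + 1 / (N : ℝ)) atTop (𝓝 (1 + 0)) :=
        tendsto_one_div_atTop_nhds_zero_nat.const_add 1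
      rw [add_zero] at h4
      refine h4.congr' ?_
      filter_upwards [eventually_gt_atTop 0] with N hN
      have : (N : ℝ) ≠ 0 := by positivity
      field_simp
    have h5 : Tendsto (fun N : ℕ => v 0 / (N : ℝ)) atTop (𝓝 0) :=
      tendsto_const_div_atTop_nhds_zero_nat (v 0)
    have h6 := (h2.mul h3).sub h5
    rw [zero_mul, sub_zero] at h6
    refine h6.congr' ?_
    filter_upwards [eventually_gt_atTop 0] with N hN
    have hN' : (N : ℝ) ≠ 0 := by positivity
    have hN1 : (N : ℝ) + 1 ≠ 0 := by positivity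
    have e : ∑ n ∈ range (N + 1), v n = v 0 + ∑ n ∈ Finset.Icc 1 N, v n := by
      rw [Finset.sum_range_succ', add_comm]
      congr 1
      rw [Finset.range_eq_Ico, Finset.sum_Ico_add' (fun n => v n) 0 N 1]
      rfl
    simp only [Function.comp_apply]
    rw [e]
    push_cast
    field_simp
    ring
  unfold Z0
  have h7 : Tendsto (fun N : ℕ => (((∑ n ∈ Finset.Icc 1 N, v n) / N : ℝ) : ℂ)) atTop
      (𝓝 ((0 : ℝ) : ℂ)) := (Complex.continuous_ofReal.tendsto 0).comp h1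
  rw [Complex.ofReal_zero] at h7
  refine h7.congr fun N => ?_
  push_cast
  rfl

/-- representation of essentially bounded functions -/
theorem rep {X : Type*} [MeasurableSpace X] {μ : Measure X} [IsProbabilityMeasure μ] {f : X → ℂ}
    (hf : MemLp f ⊤ μ) : ∃ (c : ℝ) (f1 f2 : X → ℝ), 0 < c ∧ Measurable f1 ∧ Measurable f2 ∧
      (∀ x, |f1 x| ≤ 1 / 2) ∧ (∀ x, |f2 x| ≤ 1 / 2) ∧
      f =ᵐ[μ] fun x => (c : ℂ) * ((f1 x : ℂ) + Complex.I * (f2 x : ℂ)) := by
  have hC : eLpNorm f ⊤ μ ≠ ⊤ := hf.eLpNorm_lt_top.ne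
  set C := (eLpNorm f ⊤ μ).toReal with hCdef
  have hbd : ∀ᵐ x ∂μ, ‖f x‖ ≤ C := by
    have h1 := ae_le_eLpNormEssSup (f := f) (μ := μ)
    rw [← eLpNorm_exponent_top] at h1
    filter_upwards [h1] with x hx
    have h2 := ENNReal.toReal_mono hC hx
    rw [toReal_enorm] at h2
    exact h2
  set g := hf.aestronglyMeasurable.mk f with hg
  have hgm : Measurable g := hf.aestronglyMeasurable.stronglyMeasurable_mk.measurable
  have hfg : f =ᵐ[μ] g := hf.aestronglyMeasurable.ae_eq_mk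
  have hC0 : 0 ≤ C := ENNReal.toReal_nonneg
  have hc : (0 : ℝ) < 2 * (C + 1) := by linarith
  have hcC : ((2 * (C + 1) : ℝ) : ℂ) ≠ 0 := by exact_mod_cast hc.ne'
  refine ⟨2 * (C + 1), fun x => clip ((g x).re / (2 * (C + 1))),
    fun x => clip ((g x).im / (2 * (C + 1))), hc,
    clip_cont.measurable.comp ((Complex.measurable_re.comp hgm).div_const _),
    clip_cont.measurable.comp ((Complex.measurable_im.comp hgm).div_const _),
    fun x => clip_abs _, fun x => clip_abs _, ?_⟩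
  filter_upwards [hbd, hfg] with x h1 h2
  have h3 : |(g x).re| ≤ C := by
    rw [← h2]; exact (Complex.abs_re_le_norm _).trans h1
  have h4 : |(g x).im| ≤ C := by
    rw [← h2]; exact (Complex.abs_im_le_norm _).trans h1
  have h5 : clip ((g x).re / (2 * (C + 1))) = (g x).re / (2 * (C + 1)) := by
    apply clip_of
    rw [abs_div, abs_of_pos hc, div_le_iff₀ hc]
    linarith
  have h6 : clip ((g x).im / (2 * (C + 1))) = (g x).im / (2 * (C + 1)) := by
    apply clip_of
    rw [abs_div, abs_of_pos hc, div_le_iff₀ hc]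
    linarith
  rw [h5, h6, h2]
  push_cast
  have e : ((g x).re : ℂ) + Complex.I * ((g x).im : ℂ) = g x := by
    rw [mul_comm]; exact Complex.re_add_im (g x)
  have hcC' : (2 * ((C : ℂ) + 1)) ≠ 0 := by
    have := hcC
    push_cast at this
    exact this
  have hC1 : ((C : ℂ) + 1) ≠ 0 := right_ne_zero_of_mul hcC'
  have e3 : 2 * ((C : ℂ) + 1) * ((g x).re / (2 * (C + 1)) + Complex.I * ((g x).im / (2 * (C + 1))))
      = (g x).re + Complex.I * (g x).im := by
    field_simp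
  rw [e3, e]

theorem nullWeight_of_real {w1 w2 : ℕ → ℝ} (h1 : NullR.{u} w1) (h2 : NullR.{u} w2) :
    NullWeight.{u} (fun n => (w1 n : ℂ) + Complex.I * (w2 n : ℂ)) := by
  intro X _ μ _ T hT f g hf hg
  obtain ⟨c, f1, f2, _, hf1, hf2, hf1b, hf2b, hfe⟩ := rep hf
  obtain ⟨c', g1, g2, _, hg1, hg2, hg1b, hg2b, hge⟩ := rep hg
  have hf1' : ∀ x, |f1 x| ≤ 1 := fun x => (hf1b x).trans (by norm_num)
  have hf2' : ∀ x, |f2 x| ≤ 1 := fun x => (hf2b x).trans (by norm_num)
  have hg1' : ∀ x, |g1 x| ≤ 1 := fun x => (hg1b x).trans (by norm_num)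
  have hg2' : ∀ x, |g2 x| ≤ 1 := fun x => (hg2b x).trans (by norm_num)
  have hTs : MeasurePreserving T.symm μ μ := hT.symm T
  filter_upwards [ae_orbit hT hfe, ae_orbit hTs hge,
    h1 X μ T hT f1 g1 hf1 hg1 hf1' hg1', h1 X μ T hT f1 g2 hf1 hg2 hf1' hg2',
    h1 X μ T hT f2 g1 hf2 hg1 hf2' hg1', h1 X μ T hT f2 g2 hf2 hg2 hf2' hg2',
    h2 X μ T hT f1 g1 hf1 hg1 hf1' hg1', h2 X μ T hT f1 g2 hf1 hg2 hf1' hg2',
    h2 X μ T hT f2 g1 hf2 hg1 hf2' hg1', h2 X μ T hT f2 g2 hf2 hg2 hf2' hg2']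
    with x a1 a2 b1 b2 b3 b4 b5 b6 b7 b8
  have z1 := Z0_of_range b1
  have z2 := Z0_of_range b2
  have z3 := Z0_of_range b3
  have z4 := Z0_of_range b4
  have z5 := Z0_of_range b5
  have z6 := Z0_of_range b6
  have z7 := Z0_of_range b7
  have z8 := Z0_of_range b8
  have hz : Z0 (fun n => f (T^[n] x) * g (T.symm^[n] x) * ((w1 n : ℂ) + Complex.I * (w2 n : ℂ))) := by
    have hall := ((((z1.add (z2.mul Complex.I)).add (z3.mul Complex.I)).add (z4.mul (-1))).add
      ((((z5.mul Complex.I).add (z6.mul (-1))).add (z7.mul (-1))).add (z8.mul (-Complex.I)))).mul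
      ((c : ℂ) * c')
    refine hall.congr fun n => ?_
    rw [a1 n, a2 n]
    push_cast
    linear_combination (-(c : ℂ) * c' * (-(w1 n : ℂ) * f2 (T^[n] x) * g2 (T.symm^[n] x)
      - w2 n * f1 (T^[n] x) * g2 (T.symm^[n] x) - w2 n * f2 (T^[n] x) * g1 (T.symm^[n] x)
      - Complex.I * (w2 n * f2 (T^[n] x) * g2 (T.symm^[n] x)))) * (Complex.I_sq)
  exact hz

end Pool.Agent.H85.RT
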