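import Pool.Agent.H85.RT.Vdc

/-!
# Weights with vanishing cube correlations are universally good for double recurrence
-/

namespace Pool.Agent.H85.RT

open MeasureTheory Finset Filter Topology

universe u

/-- a criterion for almost everywhere summability -/
theorem ae_summable {α : Type*} [MeasurableSpace α] {μ : Measure α} {r : ℕ → α → ℝ}
    (h0 : ∀ j x, 0 ≤ r j x) (hi : ∀ j, Integrable (r j) μ) {c : ℕ → ℝ} (hc : Summable c)
    (hle : ∀ j, ∫ x, r j x ∂μ ≤ c j) : ∀ᵐ x ∂μ, Summable (fun j => r j x) := by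
  have hm : ∀ j, AEMeasurable (fun x => ENNReal.ofReal (r j x)) μ := fun j =>
    (hi j).aestronglyMeasurable.aemeasurable.ennreal_ofReal
  have h1 : ∫⁻ x, ∑' j, ENNReal.ofReal (r j x) ∂μ ≠ ⊤ := by
    rw [lintegral_tsum hm]
    have h2 : ∀ j, ∫⁻ x, ENNReal.ofReal (r j x) ∂μ ≤ ENNReal.ofReal (c j) := by
      intro j
      rw [← ofReal_integral_eq_lintegral_ofReal (hi j) (Eventually.of_forall (h0 j))]
      exact ENNReal.ofReal_le_ofReal (hle j)
    refine ne_top_of_le_ne_top ?_ (ENNReal.tsum_le_tsum h2)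
    exact hc.tsum_ofReal_ne_top
  filter_upwards [ae_lt_top' (AEMeasurable.ennreal_tsum hm) h1] with x hx
  have h3 := ENNReal.summable_toReal hx.ne
  exact h3.congr fun j => ENNReal.toReal_ofReal (h0 j x)

/-- convergence along eighth powers is enough -/
theorem interp {u : ℕ → ℝ} (hu : ∀ n, |u n| ≤ 1)
    (h : Tendsto (fun j : ℕ => (∑ n ∈ range ((j + 1) ^ 8), u n) / ((j + 1) ^ 8 : ℕ)) atTop (𝓝 0)) :
    Tendsto (fun N : ℕ => (∑ n ∈ range N, u n) / N) atTop (𝓝 0) := by
  have hmono : Monotone (fun N : ℕ => ∑ n ∈ range N, (u n + 1)) := by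
    intro a b hab
    refine Finset.sum_le_sum_of_subset_of_nonneg (Finset.range_mono hab) fun n _ _ => ?_
    have := (abs_le.mp (hu n)).1
    linarith
  have key := tendsto_div_of_monotone_of_exists_subseq_tendsto_div
    (fun N : ℕ => ∑ n ∈ range N, (u n + 1)) 1 hmono ?_
  · have h2 : Tendsto (fun N : ℕ => (∑ n ∈ range N, (u n + 1)) / N - 1) atTop (𝓝 0) := by
      simpa using key.sub_const 1
    refine h2.congr' ?_
    filter_upwards [eventually_gt_atTop 0] with N hN
    have hN' : (N : ℝ) ≠ 0 := by positivity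
    rw [Finset.sum_add_distrib]
    simp
    field_simp
    ring
  · intro a ha
    refine ⟨fun n => (n + 1) ^ 8, ?_, ?_, ?_⟩
    · have h3 : Tendsto (fun n : ℕ => ((1 : ℝ) + 1 / ((n : ℝ) + 1)) ^ 8) atTop (𝓝 ((1 + 0) ^ 8)) :=
        (tendsto_one_div_add_atTop_nhds_zero_nat.const_add 1).pow 8
      have h4 : ∀ᶠ n : ℕ in atTop, ((1 : ℝ) + 1 / ((n : ℝ) + 1)) ^ 8 < a :=
        h3.eventually (gt_mem_nhds (by norm_num; exact ha))
      filter_upwards [h4] with n hn
      push_cast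
      have h5 : ((n : ℝ) + 1 + 1) ^ 8 = (1 + 1 / ((n : ℝ) + 1)) ^ 8 * ((n : ℝ) + 1) ^ 8 := by
        rw [← mul_pow]
        congr 1
        field_simp
      rw [h5]
      exact mul_le_mul_of_nonneg_right hn.le (by positivity)
    · refine tendsto_atTop_mono (f := fun n : ℕ => n) (fun n => ?_) tendsto_id
      calc n ≤ n + 1 := Nat.le_succ n
        _ = (n + 1) ^ 1 := (pow_one _).symm
        _ ≤ (n + 1) ^ 8 := Nat.pow_le_pow_right (Nat.succ_pos n) (by norm_num)
    · have h6 := h.add_const 1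
      rw [zero_add] at h6
      refine h6.congr fun n => ?_
      rw [Finset.sum_add_distrib]
      have : (((n + 1) ^ 8 : ℕ) : ℝ) ≠ 0 := by positivity
      simp only [Finset.sum_const, card_range, nsmul_eq_mul, mul_one]
      rw [add_div, div_self this]

/-- `w` is universally good with limit zero -/
def NullR (w : ℕ → ℝ) : Prop := ∀ (X : Type u) [MeasurableSpace X] (μ : Measure X)
  [IsProbabilityMeasure μ] (T : X ≃ᵐ X), MeasurePreserving T μ μ → ∀ f g : X → ℝ,
  Measurable f → Measurable g → (∀ x, |f x| ≤ 1) → (∀ x, |g x| ≤ 1) →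
  ∀ᵐ x ∂μ, Tendsto (fun N : ℕ => (∑ n ∈ range N, w n * (f (T^[n] x) * g (T.symm^[n] x))) / N)
    atTop (𝓝 0)

/-- the error function -/
noncomputable def Rj (w : ℕ → ℝ) (j : ℕ) : ℝ :=
  2 * ((j : ℝ) + 1) ^ 2 / (((j : ℝ) + 1) ^ 8 * (((j : ℝ) + 1) ^ 4) ^ 4) *
    Qc w ((j + 1) ^ 8) ((j + 1) ^ 4) + 17 / ((j : ℝ) + 1) ^ 2

theorem Qc_nonneg (w : ℕ → ℝ) (N H : ℕ) : 0 ≤ Qc w N H := by
  unfold Qc
  exact Finset.sum_nonneg fun _ _ => Finset.sum_nonneg fun _ _ => Finset.sum_nonneg fun _ _ =>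
    Finset.sum_nonneg fun _ _ => abs_nonneg _

theorem Rj_nonneg (w : ℕ → ℝ) (j : ℕ) : 0 ≤ Rj w j := by
  unfold Rj
  have := Qc_nonneg w ((j + 1) ^ 8) ((j + 1) ^ 4)
  have hy : (0 : ℝ) < (j : ℝ) + 1 := by positivity
  have h2 : 0 ≤ 2 * ((j : ℝ) + 1) ^ 2 / (((j : ℝ) + 1) ^ 8 * (((j : ℝ) + 1) ^ 4) ^ 4) := by
    positivity
  have h3 : 0 ≤ 17 / ((j : ℝ) + 1) ^ 2 := by positivity
  exact add_nonneg (mul_nonneg h2 this) h3

theorem nullR_of_summable {w : ℕ → ℝ} (hw : ∀ n, |w n| ≤ 1) (hs : Summable (Rj w)) :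
    NullR.{u} w := by
  intro X _ μ _ T hT f g hf hg hfb hgb
  have hit : ∀ n, MeasurePreserving (T^[n]) μ μ := fun n => hT.iterate n
  have hits : ∀ n, MeasurePreserving (T.symm^[n]) μ μ := fun n => (hT.symm T).iterate n
  have hm : ∀ n, Measurable (fun x => w n * (f (T^[n] x) * g (T.symm^[n] x))) := fun n =>
    ((hf.comp (hit n).measurable).mul (hg.comp (hits n).measurable)).const_mul _
  have hb : ∀ n x, |w n * (f (T^[n] x) * g (T.symm^[n] x))| ≤ 1 := by
    intro n x
    rw [abs_mul, abs_mul]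
    exact mul_le_one₀ (hw n) (by positivity) (mul_le_one₀ (hfb _) (abs_nonneg _) (hgb _))
  have hae := ae_summable (μ := μ) (r := fun j x => ((∑ n ∈ range ((j + 1) ^ 8),
      w n * (f (T^[n] x) * g (T.symm^[n] x))) / ((j + 1) ^ 8 : ℕ)) ^ 2) (c := Rj w)
    (fun j x => sq_nonneg _) (fun j => ?_) hs (fun j => ?_)
  · filter_upwards [hae] with x hx
    have h1 := hx.tendsto_atTop_zero
    have h2 : Tendsto (fun j : ℕ => |(∑ n ∈ range ((j + 1) ^ 8),
        w n * (f (T^[n] x) * g (T.symm^[n] x))) / ((j + 1) ^ 8 : ℕ)|) atTop (𝓝 0) := by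
      have := h1.sqrt
      rw [Real.sqrt_zero] at this
      refine this.congr fun j => ?_
      exact Real.sqrt_sq_eq_abs _
    exact interp (fun n => hb n x) (tendsto_zero_iff_abs_tendsto_zero _ |>.mpr h2)
  · refine int_of_bdd (((Finset.measurable_sum _ fun n _ => hm n).div_const _).pow_const 2)
      (C := 1) fun x => ?_
    rw [abs_pow, sq_le_one_iff_abs_le_one, abs_abs, abs_div, Nat.abs_cast]
    refine div_le_one_of_le₀ ?_ (Nat.cast_nonneg _)
    refine (Finset.abs_sum_le_sum_abs _ _).trans ?_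
    refine (Finset.sum_le_sum fun n _ => hb n x).trans ?_
    simp
  · have h3 := double hT hf hg hfb hgb w hw ((j + 1) ^ 8) ((j + 1) ^ 4) (by positivity)
      (by positivity) (t := ((j : ℝ) + 1) ^ 2) (by positivity)
    have e : ∀ x, ((∑ n ∈ range ((j + 1) ^ 8),
        w n * (f (T^[n] x) * g (T.symm^[n] x))) / ((j + 1) ^ 8 : ℕ)) ^ 2 =
        (1 / (((j : ℝ) + 1) ^ 8) ^ 2) * (∑ n ∈ range ((j + 1) ^ 8),
        w n * (f (T^[n] x) * g (T.symm^[n] x))) ^ 2 := by
      intro x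
      push_cast
      rw [div_pow]
      ring
    simp_rw [e]
    rw [integral_const_mul]
    have hpos : (0 : ℝ) < 1 / (((j : ℝ) + 1) ^ 8) ^ 2 := by positivity
    refine (mul_le_mul_of_nonneg_left h3 hpos.le).trans ?_
    unfold Rj
    push_cast
    set y : ℝ := (j : ℝ) + 1 with hy
    have hy1 : 1 ≤ y := by rw [hy]; linarith [(Nat.cast_nonneg j : (0 : ℝ) ≤ j)]
    have hy0 : 0 < y := by linarith
    set Q := Qc w ((j + 1) ^ 8) ((j + 1) ^ 4) with hQ
    have e2 : 1 / (y ^ 8) ^ 2 * (2 * y ^ 8 * y ^ 2 / (y ^ 4) ^ 4 * Q + 8 * (y ^ 4) ^ 2 * y ^ 2 +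
        (y ^ 8) ^ 2 / y ^ 2 + 8 * (y ^ 4) ^ 2) =
        2 * y ^ 2 / (y ^ 8 * (y ^ 4) ^ 4) * Q + (8 / y ^ 6 + 1 / y ^ 2 + 8 / y ^ 8) := by
      field_simp
      ring
    rw [e2]
    refine add_le_add le_rfl ?_
    have h6 : 8 / y ^ 6 ≤ 8 / y ^ 2 := by
      refine div_le_div_of_nonneg_left (by norm_num) (by positivity) ?_
      exact pow_le_pow_right₀ hy1 (by norm_num)
    have h8 : 8 / y ^ 8 ≤ 8 / y ^ 2 := by
      refine div_le_div_of_nonneg_left (by norm_num) (by positivity) ?_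
      exact pow_le_pow_right₀ hy1 (by norm_num)
    have e3 : 17 / y ^ 2 = 8 / y ^ 2 + 1 / y ^ 2 + 8 / y ^ 2 := by ring
    rw [e3]
    linarith

section rand

variable {Ω : Type*} [MeasurableSpace Ω] {m : Measure Ω}

/-- the product over a cube of indices -/
def cubeP (w : ℕ → ℝ) (a a' b b' c c' : ℕ) : ℝ :=
  (w (a + b + c) * w (a + b + c') * (w (a + b' + c) * w (a + b' + c'))) *
    (w (a' + b + c) * w (a' + b + c') * (w (a' + b' + c) * w (a' + b' + c')))

theorem cubeP_swap1 (w : ℕ → ℝ) (a a' b b' c c' : ℕ) :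
    cubeP w a a' b b' c c' = cubeP w a' a b b' c c' := by unfold cubeP; ring
theorem cubeP_swap2 (w : ℕ → ℝ) (a a' b b' c c' : ℕ) :
    cubeP w a a' b b' c c' = cubeP w a a' b' b c c' := by unfold cubeP; ring
theorem cubeP_swap3 (w : ℕ → ℝ) (a a' b b' c c' : ℕ) :
    cubeP w a a' b b' c c' = cubeP w a a' b b' c' c := by unfold cubeP; ring

/-- vanishing of the cube correlations -/
def Cube (S : Ω → Ω) (m : Measure Ω) (d : Ω → ℝ) (g : ℕ) : Prop :=
  ∀ a a' b b' c c' : ℕ, a + g ≤ a' → b + g ≤ b' → c + g ≤ c' →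
    ∫ ω, cubeP (fun n => d (S^[n] ω)) a a' b b' c c' ∂m = 0

/-- two indices are far apart -/
def FarI (g a b : ℕ) : Prop := a + g ≤ b ∨ b + g ≤ a

instance (g a b : ℕ) : Decidable (FarI g a b) := by unfold FarI; infer_instance

theorem Cube.far {S : Ω → Ω} {d : Ω → ℝ} {g : ℕ} (h : Cube S m d g) {a a' b b' c c' : ℕ}
    (h1 : FarI g a a') (h2 : FarI g b b') (h3 : FarI g c c') :
    ∫ ω, cubeP (fun n => d (S^[n] ω)) a a' b b' c c' ∂m = 0 := by
  rcases h1 with h1 | h1 <;> rcases h2 with h2 | h2 <;> rcases h3 with h3 | h3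
  · exact h _ _ _ _ _ _ h1 h2 h3
  · simp_rw [fun ω => cubeP_swap3 (fun n => d (S^[n] ω)) a a' b b' c c']
    exact h _ _ _ _ _ _ h1 h2 h3
  · simp_rw [fun ω => cubeP_swap2 (fun n => d (S^[n] ω)) a a' b b' c c']
    exact h _ _ _ _ _ _ h1 h2 h3
  · simp_rw [fun ω => cubeP_swap2 (fun n => d (S^[n] ω)) a a' b b' c c',
      fun ω => cubeP_swap3 (fun n => d (S^[n] ω)) a a' b' b c c']
    exact h _ _ _ _ _ _ h1 h2 h3
  · simp_rw [fun ω => cubeP_swap1 (fun n => d (S^[n] ω)) a a' b b' c c']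
    exact h _ _ _ _ _ _ h1 h2 h3
  · simp_rw [fun ω => cubeP_swap1 (fun n => d (S^[n] ω)) a a' b b' c c',
      fun ω => cubeP_swap3 (fun n => d (S^[n] ω)) a' a b b' c c']
    exact h _ _ _ _ _ _ h1 h2 h3
  · simp_rw [fun ω => cubeP_swap1 (fun n => d (S^[n] ω)) a a' b b' c c',
      fun ω => cubeP_swap2 (fun n => d (S^[n] ω)) a' a b b' c c']
    exact h _ _ _ _ _ _ h1 h2 h3
  · simp_rw [fun ω => cubeP_swap1 (fun n => d (S^[n] ω)) a a' b b' c c',
      fun ω => cubeP_swap2 (fun n => d (S^[n] ω)) a' a b b' c c',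
      fun ω => cubeP_swap3 (fun n => d (S^[n] ω)) a' a b' b c c']
    exact h _ _ _ _ _ _ h1 h2 h3

/-- number of close pairs -/
theorem close_card (g a N : ℕ) : ((range N).filter (fun b => ¬ FarI g a b)).card ≤ 2 * g := by
  have hsub : (range N).filter (fun b => ¬ FarI g a b) ⊆ Finset.Ico (a + 1 - g) (a + g) := by
    intro b hb
    simp only [Finset.mem_filter, FarI, not_or, not_le] at hb
    rw [Finset.mem_Ico]
    omega
  refine (Finset.card_le_card hsub).trans ?_
  rw [Nat.card_Ico]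
  omega

variable [IsProbabilityMeasure m] {S : Ω → Ω} {d : Ω → ℝ} {g : ℕ}

theorem Dc_le {w : ℕ → ℝ} (hw : ∀ n, |w n| ≤ 1) (N i j k l : ℕ) : Dc w N i j k l ≤ N := by
  unfold Dc
  refine (Finset.abs_sum_le_sum_abs _ _).trans ?_
  have : ∀ n ∈ range N, |w (n + k + i) * w (n + k + j) * (w (n + l + i) * w (n + l + j))| ≤ 1 := by
    intro n _
    rw [abs_mul, abs_mul, abs_mul]
    exact mul_le_one₀ (mul_le_one₀ (hw _) (abs_nonneg _) (hw _)) (by positivity)
      (mul_le_one₀ (hw _) (abs_nonneg _) (hw _))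
  refine (Finset.sum_le_sum this).trans ?_
  simp

theorem Dc_meas (hS : Measurable S) (hd : Measurable d) (N i j k l : ℕ) :
    Measurable (fun ω => Dc (fun n => d (S^[n] ω)) N i j k l) := by
  unfold Dc
  have hm : ∀ n, Measurable (fun ω => d (S^[n] ω)) := fun n => hd.comp (hS.iterate n)
  have : Measurable (fun ω => ∑ n ∈ range N, d (S^[n + k + i] ω) * d (S^[n + k + j] ω) *
      (d (S^[n + l + i] ω) * d (S^[n + l + j] ω))) :=
    Finset.measurable_sum _ fun n _ => ((hm _).mul (hm _)).mul ((hm _).mul (hm _))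
  exact this.abs

/-- second moment of the correlations -/
theorem ED2 (hS : Measurable S) (hd : Measurable d) (hdb : ∀ ω, |d ω| ≤ 1) (hC : Cube S m d g)
    (N i j k l : ℕ) (h1 : FarI g i j) (h2 : FarI g k l) :
    ∫ ω, Dc (fun n => d (S^[n] ω)) N i j k l ^ 2 ∂m ≤ 2 * g * N := by
  have hm : ∀ n, Measurable (fun ω => d (S^[n] ω)) := fun n => hd.comp (hS.iterate n)
  set q : ℕ → Ω → ℝ := fun n ω => d (S^[n + k + i] ω) * d (S^[n + k + j] ω) *
      (d (S^[n + l + i] ω) * d (S^[n + l + j] ω)) with hq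
  have hqm : ∀ n, Measurable (q n) := fun n => ((hm _).mul (hm _)).mul ((hm _).mul (hm _))
  have hqb : ∀ n ω, |q n ω| ≤ 1 := by
    intro n ω
    rw [hq]
    simp only
    rw [abs_mul, abs_mul, abs_mul]
    exact mul_le_one₀ (mul_le_one₀ (hdb _) (abs_nonneg _) (hdb _)) (by positivity)
      (mul_le_one₀ (hdb _) (abs_nonneg _) (hdb _))
  have hqq : ∀ n n', Integrable (fun ω => q n ω * q n' ω) m := fun n n' =>
    int_of_bdd ((hqm n).mul (hqm n')) (C := 1) fun ω => by
      rw [abs_mul]; exact mul_le_one₀ (hqb _ _) (abs_nonneg _) (hqb _ _)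
  have e1 : ∀ ω, Dc (fun n => d (S^[n] ω)) N i j k l ^ 2 =
      ∑ n ∈ range N, ∑ n' ∈ range N, q n ω * q n' ω := by
    intro ω
    unfold Dc
    rw [sq_abs, sq, Finset.sum_mul_sum]
  simp_rw [e1]
  rw [integral_finsetSum _ fun n _ => integrable_finsetSum _ fun n' _ => hqq n n']
  have h3 : ∀ n ∈ range N, ∫ ω, ∑ n' ∈ range N, q n ω * q n' ω ∂m ≤ 2 * g := by
    intro n _
    rw [integral_finsetSum _ fun n' _ => hqq n n']
    have h4 : ∀ n' ∈ range N, ∫ ω, q n ω * q n' ω ∂m ≤ if ¬ FarI g n n' then 1 else 0 := by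
      intro n' _
      by_cases hf : FarI g n n'
      · rw [if_neg (not_not.mpr hf)]
        have h5 := hC.far hf h2 h1
        refine le_of_eq ?_
        rw [← h5]
        rfl
      · rw [if_pos hf]
        refine (le_abs_self _).trans (int_le_one fun ω => ?_)
        rw [abs_mul]; exact mul_le_one₀ (hqb _ _) (abs_nonneg _) (hqb _ _)
    refine (Finset.sum_le_sum h4).trans ?_
    rw [← Finset.sum_filter, Finset.sum_const, nsmul_eq_mul, mul_one]
    exact_mod_cast close_card g n N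
  refine (Finset.sum_le_sum h3).trans (le_of_eq ?_)
  simp
  ring

/-- first moment of the correlations -/
theorem ED1 (hS : Measurable S) (hd : Measurable d) (hdb : ∀ ω, |d ω| ≤ 1) (hC : Cube S m d g)
    (N i j k l : ℕ) (hN : 0 < N) (h1 : FarI g i j) (h2 : FarI g k l) {s : ℝ} (hs : 0 < s) :
    ∫ ω, Dc (fun n => d (S^[n] ω)) N i j k l ∂m ≤ s * g + N / (2 * s) := by
  have hN' : (0 : ℝ) < N := by exact_mod_cast hN
  have h3 := ED2 hS hd hdb hC N i j k l h1 h2
  have hDm := Dc_meas hS hd N i j k l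
  have hD0 : ∀ ω, 0 ≤ Dc (fun n => d (S^[n] ω)) N i j k l := fun ω => abs_nonneg _
  have hDN : ∀ ω, Dc (fun n => d (S^[n] ω)) N i j k l ≤ N := fun ω => Dc_le (fun n => hdb _) _ _ _ _ _
  have i1 : Integrable (fun ω => Dc (fun n => d (S^[n] ω)) N i j k l) m :=
    int_of_bdd hDm (C := N) fun ω => by rw [abs_of_nonneg (hD0 ω)]; exact hDN ω
  have i2 : Integrable (fun ω => Dc (fun n => d (S^[n] ω)) N i j k l ^ 2) m :=
    int_of_bdd (hDm.pow_const 2) (C := (N : ℝ) ^ 2) fun ω => by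
      rw [abs_of_nonneg (sq_nonneg _)]
      exact pow_le_pow_left₀ (hD0 ω) (hDN ω) 2
  calc ∫ ω, Dc (fun n => d (S^[n] ω)) N i j k l ∂m
      ≤ ∫ ω, (s / (2 * N) * Dc (fun n => d (S^[n] ω)) N i j k l ^ 2 + N / (2 * s)) ∂m := by
        refine integral_mono i1 ((i2.const_mul _).add (integrable_const _)) fun ω => ?_
        set y := Dc (fun n => d (S^[n] ω)) N i j k l with hy
        have h3 : s / (2 * N) * y ^ 2 + N / (2 * s) - y = (s * y - N) ^ 2 / (2 * N * s) := by
          field_simp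
          ring
        have : 0 ≤ (s * y - N) ^ 2 / (2 * N * s) := by positivity
        simp only
        linarith
    _ = s / (2 * N) * (∫ ω, Dc (fun n => d (S^[n] ω)) N i j k l ^ 2 ∂m) + N / (2 * s) := by
        rw [integral_add (i2.const_mul _) (integrable_const _), integral_const_mul]
        simp
    _ ≤ s / (2 * N) * (2 * g * N) + N / (2 * s) :=
        add_le_add (mul_le_mul_of_nonneg_left h3 (by positivity)) le_rfl
    _ = s * g + N / (2 * s) := by field_simp

theorem EQ1 (hS : Measurable S) (hd : Measurable d) (hdb : ∀ ω, |d ω| ≤ 1) (hC : Cube S m d g)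
    (N H : ℕ) (hN : 0 < N) {s : ℝ} (hs : 0 < s) :
    Integrable (fun ω => Qc (fun n => d (S^[n] ω)) N H) m ∧
    ∫ ω, Qc (fun n => d (S^[n] ω)) N H ∂m ≤
      H ^ 4 * (s * g + N / (2 * s)) + 4 * g * H ^ 3 * N := by
  have hDN : ∀ i j k l ω, Dc (fun n => d (S^[n] ω)) N i j k l ≤ N :=
    fun i j k l ω => Dc_le (fun n => hdb _) _ _ _ _ _
  have hD0 : ∀ i j k l ω, 0 ≤ Dc (fun n => d (S^[n] ω)) N i j k l := fun i j k l ω => abs_nonneg _
  have i1 : ∀ i j k l, Integrable (fun ω => Dc (fun n => d (S^[n] ω)) N i j k l) m :=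
    fun i j k l => int_of_bdd (Dc_meas hS hd N i j k l) (C := N) fun ω => by
      rw [abs_of_nonneg (hD0 i j k l ω)]; exact hDN i j k l ω
  refine ⟨?_, ?_⟩
  · unfold Qc
    exact integrable_finsetSum _ fun i _ => integrable_finsetSum _ fun j _ =>
      integrable_finsetSum _ fun k _ => integrable_finsetSum _ fun l _ => i1 i j k l
  · unfold Qc
    rw [integral_finsetSum _ fun i _ => integrable_finsetSum _ fun j _ =>
      integrable_finsetSum _ fun k _ => integrable_finsetSum _ fun l _ => i1 i j k l]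
    have e1 : ∀ i ∈ range H, ∫ ω, ∑ j ∈ range H, ∑ k ∈ range H, ∑ l ∈ range H,
        Dc (fun n => d (S^[n] ω)) N i j k l ∂m = ∑ j ∈ range H, ∑ k ∈ range H, ∑ l ∈ range H,
        ∫ ω, Dc (fun n => d (S^[n] ω)) N i j k l ∂m := by
      intro i _
      rw [integral_finsetSum _ fun j _ =>
        integrable_finsetSum _ fun k _ => integrable_finsetSum _ fun l _ => i1 i j k l]
      refine Finset.sum_congr rfl fun j _ => ?_
      rw [integral_finsetSum _ fun k _ => integrable_finsetSum _ fun l _ => i1 i j k l]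
      refine Finset.sum_congr rfl fun k _ => ?_
      rw [integral_finsetSum _ fun l _ => i1 i j k l]
    rw [Finset.sum_congr rfl e1]
    set A : ℝ := s * g + N / (2 * s) with hA
    have hA0 : 0 ≤ A := by positivity
    have h2 : ∀ i j k l, ∫ ω, Dc (fun n => d (S^[n] ω)) N i j k l ∂m ≤
        A + (if ¬ FarI g i j then (N : ℝ) else 0) + (if ¬ FarI g k l then (N : ℝ) else 0) := by
      intro i j k l
      have hN0 : (0 : ℝ) ≤ N := Nat.cast_nonneg N
      have hDi : ∫ ω, Dc (fun n => d (S^[n] ω)) N i j k l ∂m ≤ N := by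
        calc ∫ ω, Dc (fun n => d (S^[n] ω)) N i j k l ∂m ≤ ∫ _, (N : ℝ) ∂m :=
              integral_mono (i1 i j k l) (integrable_const _) (hDN i j k l)
          _ = N := by simp
      by_cases h3 : FarI g i j
      · by_cases h4 : FarI g k l
        · rw [if_neg (not_not.mpr h3), if_neg (not_not.mpr h4)]
          have := ED1 hS hd hdb hC N i j k l hN h3 h4 hs
          linarith
        · rw [if_pos h4]
          split_ifs <;> linarith
      · rw [if_pos h3]
        split_ifs <;> linarith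
    have h5 : ∑ i ∈ range H, ∑ j ∈ range H, ∑ k ∈ range H, ∑ l ∈ range H,
        ∫ ω, Dc (fun n => d (S^[n] ω)) N i j k l ∂m ≤
        ∑ i ∈ range H, ∑ j ∈ range H, ∑ k ∈ range H, ∑ l ∈ range H,
        (A + (if ¬ FarI g i j then (N : ℝ) else 0) + (if ¬ FarI g k l then (N : ℝ) else 0)) :=
      Finset.sum_le_sum fun i _ => Finset.sum_le_sum fun j _ => Finset.sum_le_sum fun k _ =>
        Finset.sum_le_sum fun l _ => h2 i j k l
    refine h5.trans ?_
    have hcl : ∀ a, ∑ b ∈ range H, (if ¬ FarI g a b then (N : ℝ) else 0) ≤ 2 * g * N := by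
      intro a
      rw [← Finset.sum_filter, Finset.sum_const, nsmul_eq_mul]
      have := close_card g a H
      have h6 : ((((range H).filter (fun b => ¬ FarI g a b)).card : ℕ) : ℝ) ≤ 2 * g := by
        exact_mod_cast this
      exact mul_le_mul_of_nonneg_right h6 (Nat.cast_nonneg N)
    -- innermost sums
    have h7 : ∀ i j k, ∑ l ∈ range H,
        (A + (if ¬ FarI g i j then (N : ℝ) else 0) + (if ¬ FarI g k l then (N : ℝ) else 0)) ≤
        H * A + H * (if ¬ FarI g i j then (N : ℝ) else 0) + 2 * g * N := by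
      intro i j k
      rw [Finset.sum_add_distrib, Finset.sum_const, card_range, nsmul_eq_mul]
      have := hcl k
      linarith
    have h8 : ∀ i j, ∑ k ∈ range H, ∑ l ∈ range H,
        (A + (if ¬ FarI g i j then (N : ℝ) else 0) + (if ¬ FarI g k l then (N : ℝ) else 0)) ≤
        H * (H * A + H * (if ¬ FarI g i j then (N : ℝ) else 0) + 2 * g * N) := by
      intro i j
      refine (Finset.sum_le_sum fun k _ => h7 i j k).trans (le_of_eq ?_)
      rw [Finset.sum_const, card_range, nsmul_eq_mul]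
    have h9 : ∀ i, ∑ j ∈ range H, ∑ k ∈ range H, ∑ l ∈ range H,
        (A + (if ¬ FarI g i j then (N : ℝ) else 0) + (if ¬ FarI g k l then (N : ℝ) else 0)) ≤
        H ^ 3 * A + H ^ 2 * (2 * g * N) + H ^ 2 * (2 * g * N) := by
      intro i
      refine (Finset.sum_le_sum fun j _ => h8 i j).trans ?_
      rw [← Finset.mul_sum, Finset.sum_add_distrib, Finset.sum_add_distrib, Finset.sum_const,
        Finset.sum_const, card_range, ← Finset.mul_sum]
      simp only [nsmul_eq_mul]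
      have h10 := mul_le_mul_of_nonneg_left (hcl i) (by positivity : (0 : ℝ) ≤ H * H)
      nlinarith
    refine (Finset.sum_le_sum fun i _ => h9 i).trans (le_of_eq ?_)
    rw [Finset.sum_const, card_range, nsmul_eq_mul]
    ring

/-- weights with vanishing cube correlations are almost surely universally good -/
theorem null_of_cube (hS : Measurable S) (hd : Measurable d) (hdb : ∀ ω, |d ω| ≤ 1)
    (hC : Cube S m d g) : ∀ᵐ ω ∂m, NullR.{u} (fun n => d (S^[n] ω)) := by
  have h1 := ae_summable (μ := m) (r := fun j ω => Rj (fun n => d (S^[n] ω)) j)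
    (c := fun j : ℕ => (10 * g + 19) * (1 / ((j : ℝ) + 1) ^ 2)) (fun j ω => ?_) (fun j => ?_)
    ?_ (fun j => ?_)
  · filter_upwards [h1] with ω hω
    exact nullR_of_summable (fun n => hdb _) hω
  · exact Rj_nonneg _ j
  · exact ((EQ1 hS hd hdb hC ((j + 1) ^ 8) ((j + 1) ^ 4) (by positivity)
      (s := 1) one_pos).1.const_mul _).add (integrable_const _)
  · refine Summable.mul_left _ ?_
    have := (summable_nat_add_iff 1).mpr (Real.summable_one_div_nat_pow.mpr (by norm_num : 1 < 2))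
    simpa using this
  · have hQ := EQ1 hS hd hdb hC ((j + 1) ^ 8) ((j + 1) ^ 4) (by positivity)
      (s := ((j : ℝ) + 1) ^ 4) (by positivity)
    unfold Rj
    rw [integral_add (hQ.1.const_mul _) (integrable_const _), integral_const_mul]
    have h2 := hQ.2
    push_cast at h2
    set y : ℝ := (j : ℝ) + 1 with hy
    have hy1 : 1 ≤ y := by rw [hy]; linarith [(Nat.cast_nonneg j : (0 : ℝ) ≤ j)]
    have hy0 : 0 < y := by linarith
    have h3 := mul_le_mul_of_nonneg_left h2
      (by positivity : 0 ≤ 2 * y ^ 2 / (y ^ 8 * (y ^ 4) ^ 4))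
    simp only [integral_const, probReal_univ, smul_eq_mul, one_mul]
    refine (add_le_add h3 le_rfl).trans ?_
    have e : 2 * y ^ 2 / (y ^ 8 * (y ^ 4) ^ 4) *
        ((y ^ 4) ^ 4 * (y ^ 4 * g + y ^ 8 / (2 * y ^ 4)) + 4 * g * (y ^ 4) ^ 3 * y ^ 8) +
        17 / y ^ 2 = (2 * (g + 1 / 2 + 4 * g) + 17) * (1 / y ^ 2) := by
      field_simp
    rw [e]
    refine mul_le_mul_of_nonneg_right ?_ (by positivity)
    linarith

end rand

end Pool.Agent.H85.RT
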