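import Mathlib

/-!
# Double recurrence averages with weights: two van der Corput steps
-/

namespace Pool.Agent.H85.RT

open MeasureTheory Finset Filter Topology

/-- shifting a finite sum -/
theorem shift_le (a : ℕ → ℝ) (ha : ∀ n, |a n| ≤ 1) (N i : ℕ) :
    |∑ n ∈ range N, a (n + i) - ∑ n ∈ range N, a n| ≤ 2 * i := by
  induction i with
  | zero => simp
  | succ i ih =>
    have h1 : ∑ n ∈ range N, a (n + (i + 1)) = ∑ n ∈ range N, a (n + i) + a (N + i) - a i := by
      have e1 := Finset.sum_range_succ (fun n => a (n + i)) N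
      have e2 := Finset.sum_range_succ' (fun n => a (n + i)) N
      have e3 : ∑ n ∈ range N, a (n + (i + 1)) = ∑ n ∈ range N, a (n + 1 + i) := by
        refine Finset.sum_congr rfl fun n _ => ?_
        congr 1
        omega
      rw [e3]
      simp only [zero_add] at e2
      linarith
    rw [h1]
    have h2 := abs_le.mp ih
    have h3 := abs_le.mp (ha (N + i))
    have h4 := abs_le.mp (ha i)
    push_cast
    rw [abs_le]
    constructor <;> linarith [h2.1, h2.2, h3.1, h3.2, h4.1, h4.2]

/-- van der Corput's inequality -/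
theorem vdc (a : ℕ → ℝ) (ha : ∀ n, |a n| ≤ 1) (N H : ℕ) (hH : 0 < H) :
    (∑ n ∈ range N, a n) ^ 2 ≤
      2 * N / H ^ 2 * ∑ i ∈ range H, ∑ j ∈ range H, ∑ n ∈ range N, a (n + i) * a (n + j)
        + 8 * H ^ 2 := by
  set A := ∑ n ∈ range N, a n with hA
  set B := ∑ n ∈ range N, ∑ i ∈ range H, a (n + i) with hB
  have hH' : (0 : ℝ) < H := by exact_mod_cast hH
  have h1 : |H * A - B| ≤ 2 * H ^ 2 := by
    have e1 : H * A - B = ∑ i ∈ range H, (A - ∑ n ∈ range N, a (n + i)) := by
      rw [hB, Finset.sum_comm, Finset.sum_sub_distrib]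
      simp
    rw [e1]
    refine (Finset.abs_sum_le_sum_abs _ _).trans ?_
    have h2 : ∀ i ∈ range H, |A - ∑ n ∈ range N, a (n + i)| ≤ 2 * H := by
      intro i hi
      rw [abs_sub_comm]
      refine (shift_le a ha N i).trans ?_
      have : (i : ℝ) ≤ H := by exact_mod_cast (Finset.mem_range.mp hi).le
      linarith
    refine (Finset.sum_le_sum h2).trans (le_of_eq ?_)
    simp
    ring
  have h3 : (H * A) ^ 2 ≤ 2 * B ^ 2 + 8 * H ^ 4 := by
    have h4 := abs_le.mp h1
    have h5 : (H * A - B) ^ 2 ≤ (2 * H ^ 2) ^ 2 := sq_le_sq' h4.1 h4.2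
    nlinarith [sq_nonneg (H * A - 2 * B)]
  have h6 : B ^ 2 ≤ N * ∑ i ∈ range H, ∑ j ∈ range H, ∑ n ∈ range N, a (n + i) * a (n + j) := by
    have h7 := sq_sum_le_card_mul_sum_sq (s := range N) (f := fun n => ∑ i ∈ range H, a (n + i))
    rw [card_range] at h7
    refine h7.trans (le_of_eq ?_)
    congr 1
    have h8 : ∀ n ∈ range N, (∑ i ∈ range H, a (n + i)) ^ 2 =
        ∑ i ∈ range H, ∑ j ∈ range H, a (n + i) * a (n + j) := by
      intro n _
      rw [sq, Finset.sum_mul_sum]
    rw [Finset.sum_congr rfl h8, Finset.sum_comm]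
    refine Finset.sum_congr rfl fun i _ => ?_
    rw [Finset.sum_comm]
  have h9 : (H : ℝ) ^ 2 * A ^ 2 ≤ H ^ 2 * (2 * N / H ^ 2 * ∑ i ∈ range H, ∑ j ∈ range H,
      ∑ n ∈ range N, a (n + i) * a (n + j) + 8 * H ^ 2) := by
    have e : (H : ℝ) ^ 2 * (2 * N / H ^ 2 * ∑ i ∈ range H, ∑ j ∈ range H,
      ∑ n ∈ range N, a (n + i) * a (n + j) + 8 * H ^ 2) = 2 * (N * ∑ i ∈ range H, ∑ j ∈ range H,
      ∑ n ∈ range N, a (n + i) * a (n + j)) + 8 * H ^ 4 := by
      field_simp
    rw [e]
    nlinarith
  exact le_of_mul_le_mul_left h9 (by positivity)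

section sys

variable {X : Type*} [MeasurableSpace X] {μ : Measure X} [IsProbabilityMeasure μ]

theorem int_of_bdd {f : X → ℝ} (hf : Measurable f) {C : ℝ} (hb : ∀ x, |f x| ≤ C) :
    Integrable f μ :=
  Integrable.mono' (integrable_const C) hf.aestronglyMeasurable
    (Eventually.of_forall fun x => by rw [Real.norm_eq_abs]; exact hb x)

theorem int_le_one {f : X → ℝ} (hb : ∀ x, |f x| ≤ 1) : |∫ x, f x ∂μ| ≤ 1 := by
  have := norm_integral_le_of_norm_le_const (μ := μ) (f := f) (C := 1)
    (Eventually.of_forall fun x => by rw [Real.norm_eq_abs]; exact hb x)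
  simpa using this

/-- one-sided averages along `T^(2n)` -/
theorem single {T : X → X} (hT : MeasurePreserving T μ μ) {F : X → ℝ} (hF : Measurable F)
    (hFb : ∀ x, |F x| ≤ 1) (v : ℕ → ℝ) (hv : ∀ n, |v n| ≤ 1) (N H : ℕ) (hH : 0 < H) :
    ∫ x, (∑ n ∈ range N, v n * F (T^[2 * n] x)) ^ 2 ∂μ ≤
      2 * N / H ^ 2 * ∑ i ∈ range H, ∑ j ∈ range H, |∑ n ∈ range N, v (n + i) * v (n + j)|
        + 8 * H ^ 2 := by
  have hit : ∀ n, MeasurePreserving (T^[n]) μ μ := fun n => hT.iterate n
  have hm : ∀ n, Measurable (fun x => v n * F (T^[2 * n] x)) := fun n =>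
    (hF.comp (hit (2 * n)).measurable).const_mul _
  have hb : ∀ n x, |v n * F (T^[2 * n] x)| ≤ 1 := by
    intro n x
    rw [abs_mul]
    exact mul_le_one₀ (hv n) (abs_nonneg _) (hFb _)
  -- pointwise inequality
  have hpt : ∀ x, (∑ n ∈ range N, v n * F (T^[2 * n] x)) ^ 2 ≤
      2 * N / H ^ 2 * ∑ i ∈ range H, ∑ j ∈ range H, ∑ n ∈ range N,
        (v (n + i) * F (T^[2 * (n + i)] x)) * (v (n + j) * F (T^[2 * (n + j)] x)) + 8 * H ^ 2 :=
    fun x => vdc (fun n => v n * F (T^[2 * n] x)) (fun n => hb n x) N H hH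
  have hint : ∀ i j n, Integrable (fun x => (v (n + i) * F (T^[2 * (n + i)] x)) *
      (v (n + j) * F (T^[2 * (n + j)] x))) μ := by
    intro i j n
    refine int_of_bdd ((hm _).mul (hm _)) (C := 1) fun x => ?_
    rw [abs_mul]
    exact mul_le_one₀ (hb _ x) (abs_nonneg _) (hb _ x)
  have hval : ∀ i j n, ∫ x, (v (n + i) * F (T^[2 * (n + i)] x)) *
      (v (n + j) * F (T^[2 * (n + j)] x)) ∂μ =
      (v (n + i) * v (n + j)) * ∫ x, F (T^[2 * i] x) * F (T^[2 * j] x) ∂μ := by
    intro i j n
    rw [← integral_const_mul]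
    have e : ∀ x, (v (n + i) * F (T^[2 * (n + i)] x)) * (v (n + j) * F (T^[2 * (n + j)] x)) =
        (fun y => v (n + i) * v (n + j) * (F (T^[2 * i] y) * F (T^[2 * j] y))) (T^[2 * n] x) := by
      intro x
      have e1 : T^[2 * (n + i)] x = T^[2 * i] (T^[2 * n] x) := by
        rw [← Function.iterate_add_apply]; congr 1; ring_nf
      have e2 : T^[2 * (n + j)] x = T^[2 * j] (T^[2 * n] x) := by
        rw [← Function.iterate_add_apply]; congr 1; ring_nf
      rw [e1, e2]
      ring
    simp_rw [e]
    have hmm : Measurable (fun y => v (n + i) * v (n + j) * (F (T^[2 * i] y) * F (T^[2 * j] y))) :=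
      ((hF.comp (hit _).measurable).mul (hF.comp (hit _).measurable)).const_mul _
    rw [← integral_map (hit (2 * n)).measurable.aemeasurable hmm.aestronglyMeasurable,
      (hit (2 * n)).map_eq]
  calc ∫ x, (∑ n ∈ range N, v n * F (T^[2 * n] x)) ^ 2 ∂μ
      ≤ ∫ x, (2 * N / H ^ 2 * ∑ i ∈ range H, ∑ j ∈ range H, ∑ n ∈ range N,
        (v (n + i) * F (T^[2 * (n + i)] x)) * (v (n + j) * F (T^[2 * (n + j)] x))
          + 8 * H ^ 2) ∂μ := by
        refine integral_mono ?_ ?_ hpt
        · refine int_of_bdd ((Finset.measurable_sum _ fun n _ => hm n).pow_const 2)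
            (C := (N : ℝ) ^ 2) fun x => ?_
          rw [abs_pow]
          refine pow_le_pow_left₀ (abs_nonneg _) ?_ 2
          refine (Finset.abs_sum_le_sum_abs _ _).trans ?_
          refine (Finset.sum_le_sum fun n _ => hb n x).trans ?_
          simp
        · refine Integrable.add (Integrable.const_mul ?_ _) (integrable_const _)
          exact integrable_finsetSum _ fun i _ => integrable_finsetSum _ fun j _ =>
            integrable_finsetSum _ fun n _ => hint i j n
    _ = 2 * N / H ^ 2 * ∑ i ∈ range H, ∑ j ∈ range H, ∑ n ∈ range N,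
        (v (n + i) * v (n + j)) * ∫ x, F (T^[2 * i] x) * F (T^[2 * j] x) ∂μ + 8 * H ^ 2 := by
        rw [integral_add, integral_const_mul]
        · congr 1
          · congr 1
            rw [integral_finsetSum _ fun i _ => integrable_finsetSum _ fun j _ =>
              integrable_finsetSum _ fun n _ => hint i j n]
            refine Finset.sum_congr rfl fun i _ => ?_
            rw [integral_finsetSum _ fun j _ => integrable_finsetSum _ fun n _ => hint i j n]
            refine Finset.sum_congr rfl fun j _ => ?_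
            rw [integral_finsetSum _ fun n _ => hint i j n]
            exact Finset.sum_congr rfl fun n _ => hval i j n
          · simp
        · refine Integrable.const_mul ?_ _
          exact integrable_finsetSum _ fun i _ => integrable_finsetSum _ fun j _ =>
            integrable_finsetSum _ fun n _ => hint i j n
        · exact integrable_const _
    _ ≤ _ := by
        refine add_le_add (mul_le_mul_of_nonneg_left ?_ (by positivity)) le_rfl
        refine Finset.sum_le_sum fun i _ => Finset.sum_le_sum fun j _ => ?_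
        rw [← Finset.sum_mul]
        refine (le_abs_self _).trans ?_
        rw [abs_mul]
        refine mul_le_of_le_one_right (abs_nonneg _) (int_le_one fun x => ?_)
        rw [abs_mul]
        exact mul_le_one₀ (hFb _) (abs_nonneg _) (hFb _)

/-- the quadruple correlations of the weight -/
noncomputable def Dc (w : ℕ → ℝ) (N i j k l : ℕ) : ℝ :=
  |∑ n ∈ range N, w (n + k + i) * w (n + k + j) * (w (n + l + i) * w (n + l + j))|

/-- sum of all quadruple correlations -/
noncomputable def Qc (w : ℕ → ℝ) (N H : ℕ) : ℝ :=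
  ∑ i ∈ range H, ∑ j ∈ range H, ∑ k ∈ range H, ∑ l ∈ range H, Dc w N i j k l

theorem double {T : X ≃ᵐ X} (hT : MeasurePreserving T μ μ) {f g : X → ℝ} (hf : Measurable f)
    (hg : Measurable g) (hfb : ∀ x, |f x| ≤ 1) (hgb : ∀ x, |g x| ≤ 1) (w : ℕ → ℝ)
    (hw : ∀ n, |w n| ≤ 1) (N H : ℕ) (hN : 0 < N) (hH : 0 < H) {t : ℝ} (ht : 0 < t) :
    ∫ x, (∑ n ∈ range N, w n * (f (T^[n] x) * g (T.symm^[n] x))) ^ 2 ∂μ ≤
      2 * N * t / H ^ 4 * Qc w N H + 8 * H ^ 2 * t + N ^ 2 / t + 8 * H ^ 2 := by
  have hH' : (0 : ℝ) < H := by exact_mod_cast hH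
  have hN' : (0 : ℝ) < N := by exact_mod_cast hN
  have hTs : MeasurePreserving T.symm μ μ := hT.symm T
  have hit : ∀ n, MeasurePreserving (T^[n]) μ μ := fun n => hT.iterate n
  have hits : ∀ n, MeasurePreserving (T.symm^[n]) μ μ := fun n => hTs.iterate n
  have hm : ∀ n, Measurable (fun x => w n * (f (T^[n] x) * g (T.symm^[n] x))) := fun n =>
    ((hf.comp (hit n).measurable).mul (hg.comp (hits n).measurable)).const_mul _
  have hb : ∀ n x, |w n * (f (T^[n] x) * g (T.symm^[n] x))| ≤ 1 := by
    intro n x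
    rw [abs_mul, abs_mul]
    exact mul_le_one₀ (hw n) (by positivity) (mul_le_one₀ (hfb _) (abs_nonneg _) (hgb _))
  have hpt : ∀ x, (∑ n ∈ range N, w n * (f (T^[n] x) * g (T.symm^[n] x))) ^ 2 ≤
      2 * N / H ^ 2 * ∑ i ∈ range H, ∑ j ∈ range H, ∑ n ∈ range N,
        (w (n + i) * (f (T^[n + i] x) * g (T.symm^[n + i] x))) *
        (w (n + j) * (f (T^[n + j] x) * g (T.symm^[n + j] x))) + 8 * H ^ 2 :=
    fun x => vdc (fun n => w n * (f (T^[n] x) * g (T.symm^[n] x))) (fun n => hb n x) N H hH
  have hint : ∀ i j n, Integrable (fun x => (w (n + i) * (f (T^[n + i] x) * g (T.symm^[n + i] x))) *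
        (w (n + j) * (f (T^[n + j] x) * g (T.symm^[n + j] x)))) μ := by
    intro i j n
    refine int_of_bdd ((hm _).mul (hm _)) (C := 1) fun x => ?_
    rw [abs_mul]
    exact mul_le_one₀ (hb _ x) (abs_nonneg _) (hb _ x)
  -- the inner sum
  have hinner : ∀ i j, ∫ x, ∑ n ∈ range N,
      (w (n + i) * (f (T^[n + i] x) * g (T.symm^[n + i] x))) *
        (w (n + j) * (f (T^[n + j] x) * g (T.symm^[n + j] x))) ∂μ ≤
      t / (2 * N) * (2 * N / H ^ 2 * (∑ k ∈ range H, ∑ l ∈ range H, Dc w N i j k l) + 8 * H ^ 2)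
        + N / (2 * t) := by
    intro i j
    set F : X → ℝ := fun x => f (T^[i] x) * f (T^[j] x) with hF
    set G : X → ℝ := fun x => g (T.symm^[i] x) * g (T.symm^[j] x) with hG
    have hFm : Measurable F := (hf.comp (hit i).measurable).mul (hf.comp (hit j).measurable)
    have hGm : Measurable G := (hg.comp (hits i).measurable).mul (hg.comp (hits j).measurable)
    have hFb : ∀ x, |F x| ≤ 1 := fun x => by
      rw [hF, abs_mul]; exact mul_le_one₀ (hfb _) (abs_nonneg _) (hfb _)
    have hGb : ∀ x, |G x| ≤ 1 := fun x => by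
      rw [hG, abs_mul]; exact mul_le_one₀ (hgb _) (abs_nonneg _) (hgb _)
    set v : ℕ → ℝ := fun n => w (n + i) * w (n + j) with hv
    have hvb : ∀ n, |v n| ≤ 1 := fun n => by
      rw [hv, abs_mul]; exact mul_le_one₀ (hw _) (abs_nonneg _) (hw _)
    -- each term
    have hterm : ∀ n, ∫ x, (w (n + i) * (f (T^[n + i] x) * g (T.symm^[n + i] x))) *
        (w (n + j) * (f (T^[n + j] x) * g (T.symm^[n + j] x))) ∂μ =
        ∫ x, v n * F (T^[2 * n] x) * G x ∂μ := by
      intro n
      have e : ∀ x, v n * F (T^[2 * n] x) * G x =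
          (fun y => (w (n + i) * (f (T^[n + i] y) * g (T.symm^[n + i] y))) *
            (w (n + j) * (f (T^[n + j] y) * g (T.symm^[n + j] y)))) (T^[n] x) := by
        intro x
        have a1 : ∀ m, T^[n + m] (T^[n] x) = T^[m] (T^[2 * n] x) := by
          intro m
          rw [← Function.iterate_add_apply, ← Function.iterate_add_apply]
          congr 1
          ring
        have a2 : ∀ m, T.symm^[n + m] (T^[n] x) = T.symm^[m] x := by
          intro m
          have : T.symm^[n + m] (T^[n] x) = T.symm^[m] (T.symm^[n] (T^[n] x)) := by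
            rw [← Function.iterate_add_apply]; congr 1; ring
          rw [this]
          congr 1
          exact (Function.LeftInverse.iterate T.symm_apply_apply n) x
        simp only [hF, hG, hv, a1, a2]
        ring
      have hmm : Measurable (fun y => (w (n + i) * (f (T^[n + i] y) * g (T.symm^[n + i] y))) *
            (w (n + j) * (f (T^[n + j] y) * g (T.symm^[n + j] y)))) := (hm _).mul (hm _)
      have hmap := integral_map (μ := μ) (hit n).measurable.aemeasurable hmm.aestronglyMeasurable
      rw [(hit n).map_eq] at hmap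
      rw [hmap]
      exact (integral_congr_ae (Eventually.of_forall fun x => e x)).symm
    have hsum : ∫ x, ∑ n ∈ range N,
      (w (n + i) * (f (T^[n + i] x) * g (T.symm^[n + i] x))) *
        (w (n + j) * (f (T^[n + j] x) * g (T.symm^[n + j] x))) ∂μ =
        ∫ x, (∑ n ∈ range N, v n * F (T^[2 * n] x)) * G x ∂μ := by
      rw [integral_finsetSum _ fun n _ => hint i j n, Finset.sum_congr rfl fun n _ => hterm n,
        ← integral_finsetSum]
      · refine integral_congr_ae (Eventually.of_forall fun x => ?_)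
        simp only [Finset.sum_mul]
      · intro n _
        refine int_of_bdd (((hFm.comp (hit _).measurable).const_mul _).mul hGm) (C := 1)
          fun x => ?_
        rw [abs_mul, abs_mul]
        exact mul_le_one₀ (mul_le_one₀ (hvb n) (abs_nonneg _) (hFb _)) (abs_nonneg _) (hGb x)
    have hSm : Measurable (fun x => ∑ n ∈ range N, v n * F (T^[2 * n] x)) :=
      Finset.measurable_sum _ fun n _ => (hFm.comp (hit _).measurable).const_mul _
    have hSb : ∀ x, |∑ n ∈ range N, v n * F (T^[2 * n] x)| ≤ N := by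
      intro x
      refine (Finset.abs_sum_le_sum_abs _ _).trans ?_
      have : ∀ n ∈ range N, |v n * F (T^[2 * n] x)| ≤ 1 := fun n _ => by
        rw [abs_mul]; exact mul_le_one₀ (hvb n) (abs_nonneg _) (hFb _)
      refine (Finset.sum_le_sum this).trans ?_
      simp
    have hs := single hT hFm hFb v hvb N H hH
    have hDc : ∑ k ∈ range H, ∑ l ∈ range H, |∑ n ∈ range N, v (n + k) * v (n + l)| =
        ∑ k ∈ range H, ∑ l ∈ range H, Dc w N i j k l := by
      refine Finset.sum_congr rfl fun k _ => Finset.sum_congr rfl fun l _ => ?_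
      rfl
    rw [hDc] at hs
    rw [hsum]
    have hsq : Integrable (fun x => (∑ n ∈ range N, v n * F (T^[2 * n] x)) ^ 2) μ := by
      refine int_of_bdd (hSm.pow_const 2) (C := (N : ℝ) ^ 2) fun x => ?_
      rw [abs_pow]
      exact pow_le_pow_left₀ (abs_nonneg _) (hSb x) 2
    calc ∫ x, (∑ n ∈ range N, v n * F (T^[2 * n] x)) * G x ∂μ
        ≤ ∫ x, (t / (2 * N) * (∑ n ∈ range N, v n * F (T^[2 * n] x)) ^ 2 + N / (2 * t)) ∂μ := by
          refine integral_mono ?_ ((hsq.const_mul _).add (integrable_const _)) ?_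
          · refine int_of_bdd (hSm.mul hGm) (C := N) fun x => ?_
            rw [abs_mul]
            exact (mul_le_of_le_one_right (abs_nonneg _) (hGb x)).trans (hSb x)
          · intro x
            set y := ∑ n ∈ range N, v n * F (T^[2 * n] x) with hy
            have h1 : y * G x ≤ |y| := by
              refine (le_abs_self _).trans ?_
              rw [abs_mul]
              exact mul_le_of_le_one_right (abs_nonneg _) (hGb x)
            have h2 : |y| ≤ t / (2 * N) * y ^ 2 + N / (2 * t) := by
              have h3 : t / (2 * N) * y ^ 2 + N / (2 * t) - |y| =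
                  (t * |y| - N) ^ 2 / (2 * N * t) := by
                rw [← sq_abs y]
                field_simp
                ring
              have : 0 ≤ (t * |y| - N) ^ 2 / (2 * N * t) := by positivity
              linarith
            exact h1.trans h2
      _ = t / (2 * N) * (∫ x, (∑ n ∈ range N, v n * F (T^[2 * n] x)) ^ 2 ∂μ) + N / (2 * t) := by
          rw [integral_add (hsq.const_mul _) (integrable_const _), integral_const_mul]
          simp
      _ ≤ _ := by
          refine add_le_add (mul_le_mul_of_nonneg_left hs (by positivity)) le_rfl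
  calc ∫ x, (∑ n ∈ range N, w n * (f (T^[n] x) * g (T.symm^[n] x))) ^ 2 ∂μ
      ≤ ∫ x, (2 * N / H ^ 2 * ∑ i ∈ range H, ∑ j ∈ range H, ∑ n ∈ range N,
        (w (n + i) * (f (T^[n + i] x) * g (T.symm^[n + i] x))) *
        (w (n + j) * (f (T^[n + j] x) * g (T.symm^[n + j] x))) + 8 * H ^ 2) ∂μ := by
        refine integral_mono ?_ ?_ hpt
        · refine int_of_bdd ((Finset.measurable_sum _ fun n _ => hm n).pow_const 2)
            (C := (N : ℝ) ^ 2) fun x => ?_
          rw [abs_pow]
          refine pow_le_pow_left₀ (abs_nonneg _) ?_ 2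
          refine (Finset.abs_sum_le_sum_abs _ _).trans ?_
          refine (Finset.sum_le_sum fun n _ => hb n x).trans ?_
          simp
        · refine Integrable.add (Integrable.const_mul ?_ _) (integrable_const _)
          exact integrable_finsetSum _ fun i _ => integrable_finsetSum _ fun j _ =>
            integrable_finsetSum _ fun n _ => hint i j n
    _ = 2 * N / H ^ 2 * ∑ i ∈ range H, ∑ j ∈ range H, ∫ x, ∑ n ∈ range N,
        (w (n + i) * (f (T^[n + i] x) * g (T.symm^[n + i] x))) *
        (w (n + j) * (f (T^[n + j] x) * g (T.symm^[n + j] x))) ∂μ + 8 * H ^ 2 := by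
        rw [integral_add, integral_const_mul]
        · congr 1
          · congr 1
            rw [integral_finsetSum _ fun i _ => integrable_finsetSum _ fun j _ =>
              integrable_finsetSum _ fun n _ => hint i j n]
            refine Finset.sum_congr rfl fun i _ => ?_
            rw [integral_finsetSum _ fun j _ => integrable_finsetSum _ fun n _ => hint i j n]
          · simp
        · refine Integrable.const_mul ?_ _
          exact integrable_finsetSum _ fun i _ => integrable_finsetSum _ fun j _ =>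
            integrable_finsetSum _ fun n _ => hint i j n
        · exact integrable_const _
    _ ≤ 2 * N / H ^ 2 * ∑ i ∈ range H, ∑ j ∈ range H,
        (t / (2 * N) * (2 * N / H ^ 2 * (∑ k ∈ range H, ∑ l ∈ range H, Dc w N i j k l)
          + 8 * H ^ 2) + N / (2 * t)) + 8 * H ^ 2 := by
        refine add_le_add (mul_le_mul_of_nonneg_left ?_ (by positivity)) le_rfl
        exact Finset.sum_le_sum fun i _ => Finset.sum_le_sum fun j _ => hinner i j
    _ = _ := by
        have e1 : ∑ i ∈ range H, ∑ j ∈ range H,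
          (t / (2 * N) * (2 * N / H ^ 2 * (∑ k ∈ range H, ∑ l ∈ range H, Dc w N i j k l)
          + 8 * H ^ 2) + N / (2 * t)) = t / H ^ 2 * Qc w N H +
            H ^ 2 * (t / (2 * N) * (8 * H ^ 2) + N / (2 * t)) := by
          have e2 : ∀ i j, (t / (2 * N) * (2 * N / H ^ 2 * (∑ k ∈ range H, ∑ l ∈ range H,
              Dc w N i j k l) + 8 * H ^ 2) + N / (2 * t)) = t / H ^ 2 * (∑ k ∈ range H,
              ∑ l ∈ range H, Dc w N i j k l) + (t / (2 * N) * (8 * H ^ 2) + N / (2 * t)) := by
            intro i j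
            field_simp
            ring
          simp_rw [e2, Finset.sum_add_distrib, ← Finset.mul_sum]
          simp only [Finset.sum_const, card_range, nsmul_eq_mul, Qc]
          ring
        rw [e1]
        field_simp
        ring

end sys

end Pool.Agent.H85.RT
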